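import Mathlib

/-! Theorem R (MP_53afc0_co), Steps 1 and 2: chains of neighbourhoods with few bad histories. -/

namespace Pool.Agent.H80.RR

open Finset Classical

/-- Time `i` is bad for the history `h`: the set of candidates in `B i` is small. -/
def Bd {α : Type*} (rel : α → α → Prop) (B : ℕ → Finset α) (be : ℝ) (i : ℕ)
    (h : Finset (ℕ × α)) : Prop :=
  (((B i).filter (fun y => ∀ p ∈ h, p.1 < i → rel y p.2)).card : ℝ) < be * (B i).card

/-- The weight of a test (a colour and a history) with respect to a chain. -/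
noncomputable def Wt {α : Type*} {k : ℕ} (col : α → α → Fin k) (B : ℕ → Finset α)
    (c : ℕ → Fin k) (L P : ℕ) (x : Fin k × Finset (ℕ × α)) : ℝ :=
  if (∀ p ∈ x.2, p.1 < P → p.2 ∈ B p.1) then
    2 ^ (L * ((range P).filter (fun i => c i = x.1 ∧
      Bd (fun a b => col a b = x.1) B (1 / 2 ^ L) i x.2)).card)
  else 0

lemma maj {α : Type*} {k : ℕ} (hk : 0 < k) (col : α → α → Fin k) (S : Finset α) (z : α) :
    ∃ c : Fin k, S.card ≤ k * (S.filter (fun y => col z y = c)).card := by
  by_contra h
  push Not at h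
  have h1 : S.card = ∑ c : Fin k, (S.filter (fun y => col z y = c)).card :=
    card_eq_sum_card_fiberwise (fun _ _ => mem_univ _)
  have h2 : ∑ c : Fin k, k * (S.filter (fun y => col z y = c)).card < ∑ c : Fin k, S.card :=
    sum_lt_sum_of_nonempty ⟨⟨0, hk⟩, mem_univ _⟩ (fun c _ => h c)
  rw [← mul_sum, ← h1, sum_const, card_univ, Fintype.card_fin, smul_eq_mul] at h2
  exact lt_irrefl _ h2

/-- The set of candidates in `S` at time `P`. -/
def BdS {α : Type*} (rel : α → α → Prop) (S : Finset α) (be : ℝ) (P : ℕ)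
    (h : Finset (ℕ × α)) : Prop :=
  ((S.filter (fun y => ∀ p ∈ h, p.1 < P → rel y p.2)).card : ℝ) < be * S.card

/-- The factor of one step. -/
noncomputable def EE {α : Type*} {k : ℕ} (col : α → α → Fin k) (S : Finset α)
    (m : α → Fin k) (L P : ℕ) (z : α) (x : Fin k × Finset (ℕ × α)) : ℝ :=
  (if m z = x.1 ∧ BdS (fun a b => col a b = x.1) S (1 / 2 ^ L) P x.2 then 2 ^ L else 1) *
    (if ∀ p ∈ x.2, p.1 < P → p.2 ∈ S.filter (fun y => col z y = m z) then 1 else 0)

lemma EE_sum {α : Type*} {k : ℕ} (col : α → α → Fin k) (S : Finset α)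
    (m : α → Fin k) (L P : ℕ) (x : Fin k × Finset (ℕ × α)) :
    ∑ z ∈ S, EE col S m L P z x ≤ 2 * S.card := by
  by_cases hb : BdS (fun a b => col a b = x.1) S (1 / 2 ^ L) P x.2
  · have h1 : ∀ z ∈ S, EE col S m L P z x ≤
        1 + 2 ^ L * (if (∀ p ∈ x.2, p.1 < P → col z p.2 = x.1) then 1 else 0) := by
      intro z hz
      unfold EE
      by_cases hm : m z = x.1
      · rw [if_pos ⟨hm, hb⟩]
        by_cases hv : ∀ p ∈ x.2, p.1 < P → p.2 ∈ S.filter (fun y => col z y = m z)
        · rw [if_pos hv, if_pos (by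
            intro p hp hpP
            have := (mem_filter.mp (hv p hp hpP)).2
            rw [this, hm])]
          linarith
        · rw [if_neg hv, mul_zero]
          have : (0:ℝ) ≤ (if (∀ p ∈ x.2, p.1 < P → col z p.2 = x.1) then 1 else 0) := by
            split_ifs <;> norm_num
          positivity
      · rw [if_neg (fun h => hm h.1), one_mul]
        have h2 : (if (∀ p ∈ x.2, p.1 < P → p.2 ∈ S.filter (fun y => col z y = m z)) then (1:ℝ)
            else 0) ≤ 1 := by
          split_ifs <;> norm_num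
        have : (0:ℝ) ≤ 2 ^ L * (if (∀ p ∈ x.2, p.1 < P → col z p.2 = x.1) then 1 else 0) := by
          split_ifs <;> positivity
        linarith
    refine (sum_le_sum h1).trans ?_
    rw [sum_add_distrib, sum_const, nsmul_eq_mul, mul_one, ← mul_sum, ← sum_filter, sum_const,
      nsmul_eq_mul, mul_one]
    have h3 : ((S.filter (fun y => ∀ p ∈ x.2, p.1 < P → col y p.2 = x.1)).card : ℝ) <
      1 / 2 ^ L * S.card := by
      have h6 := hb
      unfold BdS at h6
      convert h6
    have h4 : (2:ℝ) ^ L * (S.filter (fun y => ∀ p ∈ x.2, p.1 < P → col y p.2 = x.1)).card ≤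
        S.card := by
      have h5 : (2:ℝ) ^ L * (1 / 2 ^ L * S.card) = S.card := by
        field_simp
      rw [← h5]
      exact mul_le_mul_of_nonneg_left h3.le (by positivity)
    linarith
  · have h1 : ∀ z ∈ S, EE col S m L P z x ≤ 1 := by
      intro z hz
      unfold EE
      rw [if_neg (fun h => hb h.2), one_mul]
      split_ifs <;> norm_num
    refine (sum_le_sum h1).trans ?_
    rw [sum_const, nsmul_eq_mul, mul_one]
    have : (0:ℝ) ≤ S.card := Nat.cast_nonneg _
    linarith

lemma EE_nonneg {α : Type*} {k : ℕ} (col : α → α → Fin k) (S : Finset α)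
    (m : α → Fin k) (L P : ℕ) (z : α) (x : Fin k × Finset (ℕ × α)) :
    0 ≤ EE col S m L P z x := by
  unfold EE
  apply mul_nonneg
  · split_ifs <;> positivity
  · split_ifs <;> norm_num

lemma Wt_nonneg {α : Type*} {k : ℕ} (col : α → α → Fin k) (B : ℕ → Finset α)
    (c : ℕ → Fin k) (L P : ℕ) (x : Fin k × Finset (ℕ × α)) : 0 ≤ Wt col B c L P x := by
  unfold Wt
  split_ifs <;> positivity

lemma Wt_succ {α : Type*} {k : ℕ} (col : α → α → Fin k) (S : Finset α)
    (m : α → Fin k) (L P : ℕ) (z : α) (B' B : ℕ → Finset α) (c' c : ℕ → Fin k)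
    (hB : ∀ i, i < P → B i = B' i) (hBP : B P = S) (hc : ∀ i, i < P → c i = c' i)
    (hcP : c P = m z) (hsub : ∀ i, i < P → B' i ⊆ S.filter (fun y => col z y = m z))
    (x : Fin k × Finset (ℕ × α)) :
    Wt col B c L (P + 1) x ≤ EE col S m L P z x * Wt col B' c' L P x := by
  by_cases hv : ∀ p ∈ x.2, p.1 < P + 1 → p.2 ∈ B p.1
  · have hv' : ∀ p ∈ x.2, p.1 < P → p.2 ∈ B' p.1 := by
      intro p hp hpP
      rw [← hB p.1 hpP]
      exact hv p hp (by omega)
    have hv2 : ∀ p ∈ x.2, p.1 < P → p.2 ∈ S.filter (fun y => col z y = m z) :=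
      fun p hp hpP => hsub _ hpP (hv' p hp hpP)
    have e : (range P).filter (fun i => c i = x.1 ∧
        Bd (fun a b => col a b = x.1) B (1 / 2 ^ L) i x.2) = (range P).filter (fun i => c' i = x.1 ∧
        Bd (fun a b => col a b = x.1) B' (1 / 2 ^ L) i x.2) := by
      apply filter_congr
      intro i hi
      rw [mem_range] at hi
      unfold Bd
      rw [hB i hi, hc i hi]
    have hP : Bd (fun a b => col a b = x.1) B (1 / 2 ^ L) P x.2 ↔
        BdS (fun a b => col a b = x.1) S (1 / 2 ^ L) P x.2 := by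
      unfold Bd BdS
      rw [hBP]
    unfold Wt EE
    rw [if_pos hv, if_pos hv', if_pos hv2, range_add_one, filter_insert, e, hcP, hP]
    by_cases hm : m z = x.1 ∧ BdS (fun a b => col a b = x.1) S (1 / 2 ^ L) P x.2
    · rw [if_pos hm, if_pos hm, card_insert_of_notMem (by simp), mul_add, pow_add, mul_one]
      apply le_of_eq
      ring
    · rw [if_neg hm, if_neg hm]
      apply le_of_eq
      ring
  · have : Wt col B c L (P + 1) x = 0 := by
      unfold Wt
      rw [if_neg hv]
    rw [this]
    exact mul_nonneg (EE_nonneg _ _ _ _ _ _ _) (Wt_nonneg _ _ _ _ _ _)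

/-- A chain of neighbourhoods such that the average weight is small. -/
theorem chain {α : Type*} {k : ℕ} (hk : 0 < k) (col : α → α → Fin k) (L : ℕ) (P : ℕ) :
    ∀ S : Finset α, S.Nonempty → ∀ Φ : ((Fin k × Finset (ℕ × α)) → ℝ) →ₗ[ℝ] ℝ,
    (∀ f g, (∀ x, f x ≤ g x) → Φ f ≤ Φ g) →
    ∃ (B : ℕ → Finset α) (c : ℕ → Fin k), (∀ i, i < P → B i ⊆ S) ∧
      (∀ i j, i ≤ j → j < P → B i ⊆ B j) ∧ (∀ i, i < P → S.card ≤ k ^ P * (B i).card) ∧
      Φ (Wt col B c L P) ≤ 2 ^ P * Φ (fun _ => 1) := by
  induction P with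
  | zero =>
    intro S hS Φ hΦ
    refine ⟨fun _ => ∅, fun _ => ⟨0, hk⟩, fun i hi => absurd hi (by omega),
      fun i j _ hj => absurd hj (by omega), fun i hi => absurd hi (by omega), ?_⟩
    rw [pow_zero, one_mul]
    apply hΦ
    intro x
    unfold Wt
    split_ifs
    · simp
    · norm_num
  | succ P ih =>
    intro S hS Φ hΦ
    choose m hm using maj hk col S
    have hscard : (0:ℝ) < S.card := by exact_mod_cast card_pos.mpr hS
    have havg : ∃ z ∈ S, Φ (EE col S m L P z) ≤ 2 * Φ (fun _ => 1) := by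
      apply exists_le_of_sum_le hS
      rw [← map_sum, sum_const, nsmul_eq_mul]
      have h1 : Φ ((2 * S.card : ℝ) • (fun _ : Fin k × Finset (ℕ × α) => (1:ℝ))) =
          2 * S.card * Φ (fun _ => 1) := by
        rw [map_smul, smul_eq_mul]
      have h2 : Φ (∑ z ∈ S, EE col S m L P z) ≤
          Φ ((2 * S.card : ℝ) • (fun _ : Fin k × Finset (ℕ × α) => (1:ℝ))) := by
        apply hΦ
        intro x
        rw [Finset.sum_apply, Pi.smul_apply, smul_eq_mul, mul_one]
        exact EE_sum col S m L P x
      rw [h1] at h2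
      linarith
    obtain ⟨z, hz, hzΦ⟩ := havg
    obtain ⟨S', hS'⟩ : ∃ S', S' = S.filter (fun y => col z y = m z) := ⟨_, rfl⟩
    have hS'c : S.card ≤ k * S'.card := by rw [hS']; exact hm z
    have hS'ne : S'.Nonempty := by
      rw [nonempty_iff_ne_empty]
      intro h
      rw [h, card_empty, mul_zero] at hS'c
      have := card_pos.mpr hS
      omega
    have hS'S : S' ⊆ S := by rw [hS']; exact filter_subset _ _
    obtain ⟨B', c', h1, h2, h3, h4⟩ := ih S' hS'ne
      (Φ.comp (LinearMap.mulLeft ℝ (EE col S m L P z))) (by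
        intro f g hfg
        rw [LinearMap.comp_apply, LinearMap.comp_apply, LinearMap.mulLeft_apply,
          LinearMap.mulLeft_apply]
        apply hΦ
        intro x
        rw [Pi.mul_apply, Pi.mul_apply]
        exact mul_le_mul_of_nonneg_left (hfg x) (EE_nonneg _ _ _ _ _ _ _))
    rw [LinearMap.comp_apply, LinearMap.comp_apply, LinearMap.mulLeft_apply,
      LinearMap.mulLeft_apply] at h4
    have hE1 : EE col S m L P z * (fun _ => (1:ℝ)) = EE col S m L P z := by
      ext x
      rw [Pi.mul_apply, mul_one]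
    rw [hE1] at h4
    refine ⟨fun i => if i = P then S else B' i, fun i => if i = P then m z else c' i,
      ?_, ?_, ?_, ?_⟩
    · intro i hi
      beta_reduce
      split_ifs with h
      · exact subset_rfl
      · exact (h1 i (by omega)).trans hS'S
    · intro i j hij hj
      beta_reduce
      by_cases hjP : j = P
      · rw [if_pos hjP]
        split_ifs with h
        · exact subset_rfl
        · exact (h1 i (by omega)).trans hS'S
      · rw [if_neg hjP, if_neg (by omega : i ≠ P)]
        exact h2 i j hij (by omega)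
    · intro i hi
      beta_reduce
      split_ifs with h
      · have : 1 ≤ k ^ (P + 1) := Nat.one_le_pow _ _ hk
        exact Nat.le_mul_of_pos_left _ this
      · calc S.card ≤ k * S'.card := hS'c
          _ ≤ k * (k ^ P * (B' i).card) := Nat.mul_le_mul_left _ (h3 i (by omega))
          _ = k ^ (P + 1) * (B' i).card := by ring
    · have h5 : Φ (Wt col (fun i => if i = P then S else B' i)
          (fun i => if i = P then m z else c' i) L (P + 1)) ≤
          Φ (EE col S m L P z * Wt col B' c' L P) := by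
        apply hΦ
        intro x
        rw [Pi.mul_apply]
        apply Wt_succ
        · intro i hi
          exact if_neg hi.ne
        · exact if_pos rfl
        · intro i hi
          exact if_neg hi.ne
        · exact if_pos rfl
        · intro i hi
          rw [← hS']
          exact h1 i hi
      refine h5.trans (h4.trans ?_)
      rw [pow_succ, mul_assoc]
      exact mul_le_mul_of_nonneg_left hzΦ (by positivity)

end Pool.Agent.H80.RR
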