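import Pool.Agent.H80.RR.Gd

/-! Theorem R (MP_53afc0_co), Step 4: embedding with good histories. -/

namespace Pool.Agent.H80.RR

open Finset Classical

/-- The history of a vertex: times and places of its embedded neighbours. -/
noncomputable def hist {α X : Type*} (H : SimpleGraph X) (φ : X → α) (τ : X → ℕ) (E : Finset X)
    (w : X) : Finset (ℕ × α) :=
  (E.filter (fun u => H.Adj w u)).image (fun u => (τ u, φ u))

/-- A partial embedding with good histories. -/
structure St {α X : Type*} (rel : α → α → Prop) (B : ℕ → Finset α) (be rho : ℝ) (b : ℕ)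
    (T : Finset ℕ) (D : ℕ) (H : SimpleGraph X) (T' : Finset ℕ) (V E : Finset X) (φ : X → α)
    (τ : X → ℕ) : Prop where
  sub : E ⊆ V
  inj : Set.InjOn φ E
  tim : ∀ x ∈ E, τ x ∈ T'
  mem : ∀ x ∈ E, φ x ∈ B (τ x)
  adj : ∀ x ∈ E, ∀ y ∈ E, H.Adj x y → rel (φ x) (φ y)
  good : ∀ w, w ∉ E → Good rel B be rho b T (D - (E.filter (fun u => H.Adj w u)).card)
    (hist H φ τ E w)

lemma Good.down {α : Type*} {rel : α → α → Prop} {B : ℕ → Finset α} {be rho : ℝ} {b : ℕ}
    {T : Finset ℕ} {h : Finset (ℕ × α)} (s : ℕ) : Good rel B be rho b T s h →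
    Good rel B be rho b T 0 h := by
  induction s with
  | zero => exact id
  | succ s ih => exact fun hg => ih hg.1

lemma hist_congr {α X : Type*} (H : SimpleGraph X) (φ φ' : X → α) (τ τ' : X → ℕ) (E : Finset X)
    (w : X) (h1 : ∀ x ∈ E, φ' x = φ x) (h2 : ∀ x ∈ E, τ' x = τ x) :
    hist H φ' τ' E w = hist H φ τ E w := by
  unfold hist
  apply image_congr
  intro u hu
  have hu2 : u ∈ E := (mem_filter.mp hu).1
  beta_reduce
  rw [h1 u hu2, h2 u hu2]

/-- Embedding one more vertex. -/
lemma step_one {α X : Type*} [Fintype X] {rel : α → α → Prop} (hrel : ∀ x y, rel x y → rel y x)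
    {B : ℕ → Finset α} {be rho : ℝ} {b : ℕ} {T : Finset ℕ} {D : ℕ} {H : SimpleGraph X}
    (hdeg : ∀ x, (univ.filter (fun u => H.Adj x u)).card ≤ D)
    {T' : Finset ℕ} {V E : Finset X} {φ : X → α} {τ : X → ℕ}
    (hst : St rel B be rho b T D H T' V E φ τ) {i : ℕ} (hiT : i ∈ T) (hiT' : i ∈ T')
    (hrB : 0 ≤ rho * (B i).card)
    (hnum : (Fintype.card X : ℝ) + D * (rho * (B i).card) < be * (B i).card)
    {v : X} (hvV : v ∈ V) (hvE : v ∉ E) (hgood : ¬ Bd rel B be i (hist H φ τ E v))
    (hlt : ∀ u ∈ E, H.Adj v u → τ u < i) :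
    ∃ x, St rel B be rho b T D H T' V (insert v E) (Function.update φ v x)
      (Function.update τ v i) := by
  obtain ⟨Cand, hCand⟩ : ∃ Cand, Cand = (B i).filter
    (fun y => ∀ p ∈ hist H φ τ E v, p.1 < i → rel y p.2) := ⟨_, rfl⟩
  have hCc : be * (B i).card ≤ (Cand.card : ℝ) := by
    unfold Bd at hgood
    push Not at hgood
    rw [hCand]
    exact hgood
  have hr : ∀ w, w ∉ E → H.Adj v w → (E.filter (fun u => H.Adj w u)).card + 1 ≤ D := by
    intro w hwE hvw
    refine le_trans ?_ (hdeg w)
    have : insert v (E.filter (fun u => H.Adj w u)) ⊆ univ.filter (fun u => H.Adj w u) := by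
      intro u hu
      rw [mem_insert] at hu
      rw [mem_filter]
      rcases hu with hu | hu
      · exact ⟨mem_univ _, by rw [hu]; exact hvw.symm⟩
      · exact ⟨mem_univ _, (mem_filter.mp hu).2⟩
    have h2 := card_le_card this
    rw [card_insert_of_notMem (fun h => hvE (mem_filter.mp h).1)] at h2
    exact h2
  obtain ⟨Fw, hFw⟩ : ∃ Fw : X → Finset α, Fw = fun w => (B i).filter (fun x =>
    ¬ Good rel B be rho b T (D - (E.filter (fun u => H.Adj w u)).card - 1)
      (insert (i, x) (hist H φ τ E w))) := ⟨_, rfl⟩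
  have hFc : ∀ w ∈ univ.filter (fun w => H.Adj v w ∧ w ∉ E), ((Fw w).card : ℝ) ≤
      rho * (B i).card := by
    intro w hw
    rw [mem_filter] at hw
    obtain ⟨-, hvw, hwE⟩ := hw
    have h1 := hr w hwE hvw
    have h2 := hst.good w hwE
    obtain ⟨s, hs⟩ : ∃ s, D - (E.filter (fun u => H.Adj w u)).card = s + 1 :=
      ⟨D - (E.filter (fun u => H.Adj w u)).card - 1, by omega⟩
    rw [hs] at h2
    have h3 := h2.2 i hiT
    rw [hFw]
    beta_reduce
    rw [hs, Nat.add_sub_cancel]
    exact h3
  obtain ⟨Forb, hForb⟩ : ∃ Forb, Forb = E.image φ ∪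
    (univ.filter (fun w => H.Adj v w ∧ w ∉ E)).biUnion Fw := ⟨_, rfl⟩
  have hFoc : (Forb.card : ℝ) ≤ (Fintype.card X : ℝ) + D * (rho * (B i).card) := by
    have h1 : (Forb.card : ℝ) ≤ (E.image φ).card +
        ((univ.filter (fun w => H.Adj v w ∧ w ∉ E)).biUnion Fw).card := by
      rw [hForb]; exact_mod_cast card_union_le _ _
    have h2 : ((E.image φ).card : ℝ) ≤ Fintype.card X := by
      exact_mod_cast card_image_le.trans (card_le_univ E)
    have h3 : (((univ.filter (fun w => H.Adj v w ∧ w ∉ E)).biUnion Fw).card : ℝ) ≤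
        ∑ w ∈ univ.filter (fun w => H.Adj v w ∧ w ∉ E), ((Fw w).card : ℝ) := by
      exact_mod_cast card_biUnion_le
    have h4 : ∑ w ∈ univ.filter (fun w => H.Adj v w ∧ w ∉ E), ((Fw w).card : ℝ) ≤
        ∑ w ∈ univ.filter (fun w => H.Adj v w ∧ w ∉ E), rho * (B i).card := sum_le_sum hFc
    rw [sum_const, nsmul_eq_mul] at h4
    have h5 : ((univ.filter (fun w => H.Adj v w ∧ w ∉ E)).card : ℝ) ≤ D := by
      have h6 : univ.filter (fun w => H.Adj v w ∧ w ∉ E) ⊆ univ.filter (fun w => H.Adj v w) := by
        intro u hu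
        rw [mem_filter] at hu ⊢
        exact ⟨hu.1, hu.2.1⟩
      exact_mod_cast (card_le_card h6).trans (hdeg v)
    have h7 := mul_le_mul_of_nonneg_right h5 hrB
    linarith
  obtain ⟨x, hxC, hxF⟩ : ∃ x ∈ Cand, x ∉ Forb := by
    by_contra hcon
    push Not at hcon
    have h1 : (Cand.card : ℝ) ≤ Forb.card := by exact_mod_cast card_le_card hcon
    linarith
  rw [hCand, mem_filter] at hxC
  rw [hForb, mem_union, not_or] at hxF
  obtain ⟨hxB, hxrel⟩ := hxC
  obtain ⟨hxE, hxG⟩ := hxF
  have hne : ∀ u ∈ E, u ≠ v := fun u hu h => hvE (h ▸ hu)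
  have hφE : ∀ u ∈ E, Function.update φ v x u = φ u := fun u hu =>
    Function.update_of_ne (hne u hu) _ _
  have hτE : ∀ u ∈ E, Function.update τ v i u = τ u := fun u hu =>
    Function.update_of_ne (hne u hu) _ _
  have hrelv : ∀ y ∈ E, H.Adj v y → rel x (φ y) := by
    intro y hy hvy
    apply hxrel (τ y, φ y) _ (hlt y hy hvy)
    exact mem_image_of_mem (fun u => (τ u, φ u)) (mem_filter.mpr ⟨hy, hvy⟩)
  refine ⟨x, ⟨?_, ?_, ?_, ?_, ?_, ?_⟩⟩
  · intro u hu
    rw [mem_insert] at hu
    rcases hu with hu | hu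
    · rw [hu]; exact hvV
    · exact hst.sub hu
  · intro u hu u' hu' huu
    rw [mem_coe, mem_insert] at hu hu'
    rcases hu with hu | hu
    · rcases hu' with hu' | hu'
      · rw [hu, hu']
      · rw [hu, Function.update_self, hφE u' hu'] at huu
        exact absurd (mem_image.mpr ⟨u', hu', huu.symm⟩) hxE
    · rcases hu' with hu' | hu'
      · rw [hu', Function.update_self, hφE u hu] at huu
        exact absurd (mem_image.mpr ⟨u, hu, huu⟩) hxE
      · rw [hφE u hu, hφE u' hu'] at huu
        exact hst.inj hu hu' huu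
  · intro u hu
    rw [mem_insert] at hu
    rcases hu with hu | hu
    · rw [hu, Function.update_self]; exact hiT'
    · rw [hτE u hu]; exact hst.tim u hu
  · intro u hu
    rw [mem_insert] at hu
    rcases hu with hu | hu
    · rw [hu, Function.update_self, Function.update_self]; exact hxB
    · rw [hτE u hu, hφE u hu]; exact hst.mem u hu
  · intro u hu u' hu' huu
    rw [mem_insert] at hu hu'
    rcases hu with hu | hu
    · rcases hu' with hu' | hu'
      · rw [hu, hu'] at huu
        exact absurd rfl huu.ne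
      · rw [hu] at huu ⊢
        rw [Function.update_self, hφE u' hu']
        exact hrelv u' hu' huu
    · rcases hu' with hu' | hu'
      · rw [hu'] at huu ⊢
        rw [Function.update_self, hφE u hu]
        exact hrel _ _ (hrelv u hu huu.symm)
      · rw [hφE u hu, hφE u' hu']
        exact hst.adj u hu u' hu' huu
  · intro w hw
    rw [mem_insert, not_or] at hw
    obtain ⟨hwv, hwE⟩ := hw
    by_cases hadj : H.Adj w v
    · have h1 : (insert v E).filter (fun u => H.Adj w u) =
          insert v (E.filter (fun u => H.Adj w u)) := by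
        rw [filter_insert, if_pos hadj]
      have h2 : hist H (Function.update φ v x) (Function.update τ v i) (insert v E) w =
          insert (i, x) (hist H φ τ E w) := by
        rw [← hist_congr H φ (Function.update φ v x) τ (Function.update τ v i) E w hφE hτE]
        unfold hist
        rw [h1, image_insert, Function.update_self, Function.update_self]
      rw [h2, h1, card_insert_of_notMem (fun h => hvE (mem_filter.mp h).1), ← Nat.sub_sub]
      by_contra hcon
      apply hxG
      rw [mem_biUnion]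
      refine ⟨w, mem_filter.mpr ⟨mem_univ _, hadj.symm, hwE⟩, ?_⟩
      rw [hFw]
      exact mem_filter.mpr ⟨hxB, hcon⟩
    · have h1 : (insert v E).filter (fun u => H.Adj w u) = E.filter (fun u => H.Adj w u) := by
        rw [filter_insert, if_neg hadj]
      have h2 : hist H (Function.update φ v x) (Function.update τ v i) (insert v E) w =
          hist H φ τ E w := by
        rw [← hist_congr H φ (Function.update φ v x) τ (Function.update τ v i) E w hφE hτE]
        unfold hist
        rw [h1]
      rw [h2, h1]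
      exact hst.good w hwE

/-- Embedding an independent set at one time. -/
lemma step_set {α X : Type*} [Fintype X] {rel : α → α → Prop} (hrel : ∀ x y, rel x y → rel y x)
    {B : ℕ → Finset α} {be rho : ℝ} {b : ℕ} {T : Finset ℕ} {D : ℕ} {H : SimpleGraph X}
    (hdeg : ∀ x, (univ.filter (fun u => H.Adj x u)).card ≤ D)
    {T' : Finset ℕ} {V E : Finset X} {φ : X → α} {τ : X → ℕ}
    (hst : St rel B be rho b T D H T' V E φ τ) {i : ℕ} (hiT : i ∈ T) (hT'i : ∀ j ∈ T', j < i)
    (hrB : 0 ≤ rho * (B i).card)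
    (hnum : (Fintype.card X : ℝ) + D * (rho * (B i).card) < be * (B i).card) (J : Finset X) :
    J ⊆ V → Disjoint E J → (∀ u ∈ J, ∀ v ∈ J, ¬ H.Adj u v) →
    (∀ v ∈ J, ¬ Bd rel B be i (hist H φ τ E v)) →
    ∃ (φ' : X → α) (τ' : X → ℕ), St rel B be rho b T D H (insert i T') V (E ∪ J) φ' τ' ∧
      (∀ x ∈ E, φ' x = φ x) ∧ (∀ x ∈ E, τ' x = τ x) ∧ ∀ x ∈ J, τ' x = i := by
  induction J using Finset.induction_on with
  | empty =>
    intro _ _ _ _
    refine ⟨φ, τ, ?_, fun _ _ => rfl, fun _ _ => rfl, by simp⟩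
    rw [union_empty]
    exact ⟨hst.sub, hst.inj, fun x hx => mem_insert_of_mem (hst.tim x hx), hst.mem, hst.adj,
      hst.good⟩
  | insert v J hvJ ih =>
    intro hJV hEJ hind hbd
    obtain ⟨φ1, τ1, hst1, h1, h2, h3⟩ := ih (fun u hu => hJV (mem_insert_of_mem hu))
      (disjoint_of_subset_right (subset_insert v J) hEJ)
      (fun u hu w hw => hind u (mem_insert_of_mem hu) w (mem_insert_of_mem hw))
      (fun w hw => hbd w (mem_insert_of_mem hw))
    have hvE : v ∉ E := fun h => (disjoint_left.mp hEJ h) (mem_insert_self v J)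
    have hN : (E ∪ J).filter (fun u => H.Adj v u) = E.filter (fun u => H.Adj v u) := by
      ext u
      rw [mem_filter, mem_filter, mem_union]
      constructor
      · rintro ⟨hu | hu, huv⟩
        · exact ⟨hu, huv⟩
        · exact absurd huv (hind v (mem_insert_self v J) u (mem_insert_of_mem hu))
      · rintro ⟨hu, huv⟩
        exact ⟨Or.inl hu, huv⟩
    have hh : hist H φ1 τ1 (E ∪ J) v = hist H φ τ E v := by
      rw [← hist_congr H φ φ1 τ τ1 E v h1 h2]
      unfold hist
      rw [hN]
    obtain ⟨x, hx⟩ := step_one hrel hdeg hst1 (v := v) hiT (mem_insert_self i T') hrB hnum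
      (hJV (mem_insert_self v J)) (by
        rw [mem_union, not_or]
        exact ⟨hvE, hvJ⟩) (by
        rw [hh]
        exact hbd v (mem_insert_self v J)) (by
        intro u hu huv
        rw [mem_union] at hu
        rcases hu with hu | hu
        · rw [h2 u hu]
          exact hT'i _ (hst.tim u hu)
        · exact absurd huv (hind v (mem_insert_self v J) u (mem_insert_of_mem hu)))
    refine ⟨Function.update φ1 v x, Function.update τ1 v i, ?_, ?_, ?_, ?_⟩
    rotate_left
    · intro u hu
      have hne : u ≠ v := fun h => hvE (h ▸ hu)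
      rw [Function.update_of_ne hne]
      exact h1 u hu
    · intro u hu
      have hne : u ≠ v := fun h => hvE (h ▸ hu)
      rw [Function.update_of_ne hne]
      exact h2 u hu
    · intro u hu
      rw [mem_insert] at hu
      rcases hu with hu | hu
      · rw [hu, Function.update_self]
      · have hne : u ≠ v := fun h => hvJ (h ▸ hu)
        rw [Function.update_of_ne hne]
        exact h3 u hu
    · rw [union_insert]
      exact hx

/-- A maximal independent subset. -/
lemma max_indep {X : Type*} (H : SimpleGraph X) (W : Finset X) :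
    ∃ I ⊆ W, (∀ u ∈ I, ∀ v ∈ I, ¬ H.Adj u v) ∧ ∀ w ∈ W, w ∉ I → ∃ u ∈ I, H.Adj w u := by
  obtain ⟨Pr, hPr⟩ : ∃ Pr : Finset X → Prop, ∀ I, Pr I ↔ ∀ u ∈ I, ∀ v ∈ I, ¬ H.Adj u v :=
    ⟨fun I => ∀ u ∈ I, ∀ v ∈ I, ¬ H.Adj u v, fun _ => Iff.rfl⟩
  obtain ⟨I, hI, hmax⟩ := exists_max_image (W.powerset.filter Pr) (fun I => I.card)
    ⟨∅, by
      rw [mem_filter, mem_powerset, hPr]
      exact ⟨empty_subset _, by simp⟩⟩
  rw [mem_filter, mem_powerset, hPr] at hI
  refine ⟨I, hI.1, hI.2, ?_⟩
  intro w hw hwI
  by_contra hcon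
  push Not at hcon
  have h1 := hmax (insert w I) (by
    rw [mem_filter, mem_powerset, hPr]
    constructor
    · intro u hu
      rw [mem_insert] at hu
      rcases hu with hu | hu
      · rw [hu]; exact hw
      · exact hI.1 hu
    · intro u hu v hv
      rw [mem_insert] at hu hv
      rcases hu with hu | hu
      · rcases hv with hv | hv
        · rw [hu, hv]; exact fun h => h.ne rfl
        · rw [hu]; exact hcon v hv
      · rcases hv with hv | hv
        · rw [hv]; exact fun h => hcon u hu h.symm
        · exact hI.2 u hu v hv)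
  rw [card_insert_of_notMem hwI] at h1
  omega

/-- Partial embeddings, with the count of times. -/
lemma embed_times {α X : Type*} [Nonempty α] [Fintype X] {rel : α → α → Prop}
    (hrel : ∀ x y, rel x y → rel y x)
    {B : ℕ → Finset α} {be rho : ℝ} {b : ℕ} {T : Finset ℕ} {D : ℕ} {H : SimpleGraph X}
    (hdeg : ∀ x, (univ.filter (fun u => H.Adj x u)).card ≤ D)
    (hgood : Good rel B be rho b T D ∅)
    (hrB : ∀ i ∈ T, 0 ≤ rho * (B i).card)
    (hnum : ∀ i ∈ T, (Fintype.card X : ℝ) + D * (rho * (B i).card) < be * (B i).card)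
    (V : Finset X) (T' : Finset ℕ) : T' ⊆ T →
    ∃ (E : Finset X) (φ : X → α) (τ : X → ℕ), St rel B be rho b T D H T' V E φ τ ∧
      ∀ w ∈ V, w ∉ E → T'.card ≤ (T'.filter (fun i => Bd rel B be i (hist H φ τ E w))).card +
        (E.filter (fun u => H.Adj w u)).card := by
  induction T' using Finset.induction_on_max with
  | empty =>
    intro _
    refine ⟨∅, fun _ => Classical.arbitrary α, fun _ => 0, ⟨by simp, by simp, by simp, by simp,
      by simp, ?_⟩, by simp⟩
    intro w _
    have h1 : hist H (fun _ => Classical.arbitrary α) (fun _ => 0) ∅ w = ∅ := by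
      unfold hist
      simp
    rw [h1]
    simpa using hgood
  | insert a T' hlt ih =>
    intro hT'
    obtain ⟨E, φ, τ, hst, hcnt⟩ := ih (fun j hj => hT' (mem_insert_of_mem hj))
    have haT : a ∈ T := hT' (mem_insert_self a T')
    obtain ⟨I, hIW, hind, hmax⟩ := max_indep H
      ((V \ E).filter (fun w => ¬ Bd rel B be a (hist H φ τ E w)))
    have hIV : I ⊆ V := fun u hu => (mem_sdiff.mp (mem_filter.mp (hIW hu)).1).1
    have hIE : ∀ u ∈ I, u ∉ E := fun u hu => (mem_sdiff.mp (mem_filter.mp (hIW hu)).1).2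
    obtain ⟨φ', τ', hst', h1, h2, h3⟩ := step_set hrel hdeg hst haT hlt (hrB a haT) (hnum a haT) I
      hIV (disjoint_right.mpr hIE) hind (fun v hv => (mem_filter.mp (hIW hv)).2)
    refine ⟨E ∪ I, φ', τ', hst', ?_⟩
    intro w hwV hwE
    rw [mem_union, not_or] at hwE
    have hc := hcnt w hwV hwE.1
    have haT' : a ∉ T' := fun h => lt_irrefl a (hlt a h)
    have hbd : ∀ j, j ≤ a → (Bd rel B be j (hist H φ' τ' (E ∪ I) w) ↔
        Bd rel B be j (hist H φ τ E w)) := by
      intro j hja
      have hiff : ∀ y, (∀ p ∈ hist H φ' τ' (E ∪ I) w, p.1 < j → rel y p.2) ↔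
          (∀ p ∈ hist H φ τ E w, p.1 < j → rel y p.2) := by
        intro y
        constructor
        · intro h p hp hpj
          obtain ⟨u, hu, hup⟩ := mem_image.mp hp
          rw [mem_filter] at hu
          apply h p _ hpj
          refine mem_image.mpr ⟨u, mem_filter.mpr ⟨mem_union_left _ hu.1, hu.2⟩, ?_⟩
          rw [h1 u hu.1, h2 u hu.1]
          exact hup
        · intro h p hp hpj
          obtain ⟨u, hu, hup⟩ := mem_image.mp hp
          rw [mem_filter, mem_union] at hu
          obtain ⟨hu | hu, huw⟩ := hu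
          · apply h p _ hpj
            refine mem_image.mpr ⟨u, mem_filter.mpr ⟨hu, huw⟩, ?_⟩
            rw [h1 u hu, h2 u hu] at hup
            exact hup
          · exfalso
            have h4 : p.1 = a := by
              rw [← hup]
              exact h3 u hu
            omega
      unfold Bd
      rw [filter_congr (fun y _ => hiff y)]
    have hf : T'.filter (fun i => Bd rel B be i (hist H φ' τ' (E ∪ I) w)) =
        T'.filter (fun i => Bd rel B be i (hist H φ τ E w)) :=
      filter_congr (fun j hj => hbd j (hlt j hj).le)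
    have hsubs : E.filter (fun u => H.Adj w u) ⊆ (E ∪ I).filter (fun u => H.Adj w u) := by
      intro u hu
      rw [mem_filter] at hu ⊢
      exact ⟨mem_union_left _ hu.1, hu.2⟩
    rw [card_insert_of_notMem haT', filter_insert]
    by_cases hb : Bd rel B be a (hist H φ τ E w)
    · rw [if_pos ((hbd a le_rfl).mpr hb), card_insert_of_notMem (fun h => haT' (mem_filter.mp h).1),
        hf]
      have := card_le_card hsubs
      omega
    · rw [if_neg (fun h => hb ((hbd a le_rfl).mp h)), hf]
      obtain ⟨u, hu, huw⟩ := hmax w (mem_filter.mpr ⟨mem_sdiff.mpr ⟨hwV, hwE.1⟩, hb⟩) hwE.2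
      have h5 : insert u (E.filter (fun u => H.Adj w u)) ⊆ (E ∪ I).filter (fun u => H.Adj w u) := by
        intro u' hu'
        rw [mem_insert] at hu'
        rcases hu' with hu' | hu'
        · rw [hu']
          exact mem_filter.mpr ⟨mem_union_right _ hu, huw⟩
        · exact hsubs hu'
      have h6 := card_le_card h5
      rw [card_insert_of_notMem (fun h => hIE u hu (mem_filter.mp h).1)] at h6
      omega

/-- Everything is embedded if there are at least `b + D` times. -/
theorem embed_part {α X : Type*} [Nonempty α] [Fintype X] {rel : α → α → Prop}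
    (hrel : ∀ x y, rel x y → rel y x)
    {B : ℕ → Finset α} {be rho : ℝ} {b : ℕ} {T : Finset ℕ} {D : ℕ} {H : SimpleGraph X}
    (hdeg : ∀ x, (univ.filter (fun u => H.Adj x u)).card ≤ D)
    (hgood : Good rel B be rho b T D ∅)
    (hrB : ∀ i ∈ T, 0 ≤ rho * (B i).card)
    (hnum : ∀ i ∈ T, (Fintype.card X : ℝ) + D * (rho * (B i).card) < be * (B i).card)
    (V : Finset X) (T' : Finset ℕ) (hT' : T' ⊆ T) (hcard : b + D ≤ T'.card) :
    ∃ (φ : X → α) (τ : X → ℕ), St rel B be rho b T D H T' V V φ τ := by
  obtain ⟨E, φ, τ, hst, hcnt⟩ := embed_times hrel hdeg hgood hrB hnum V T' hT'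
  have hVE : V ⊆ E := by
    intro w hwV
    by_contra hwE
    have h1 := hcnt w hwV hwE
    have h2 : (T.filter (fun i => Bd rel B be i (hist H φ τ E w))).card < b :=
      Good.down _ (hst.good w hwE)
    have h3 : (T'.filter (fun i => Bd rel B be i (hist H φ τ E w))).card ≤
        (T.filter (fun i => Bd rel B be i (hist H φ τ E w))).card :=
      card_le_card (filter_subset_filter _ hT')
    have h4 : (E.filter (fun u => H.Adj w u)).card ≤ D :=
      (card_le_card (filter_subset_filter _ (subset_univ E))).trans (hdeg w)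
    omega
  have hEV : E = V := subset_antisymm hst.sub hVE
  rw [hEV] at hst
  exact ⟨φ, τ, hst⟩

end Pool.Agent.H80.RR
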