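import Pool.Agent.H80.RR.Ram
import Pool.Agent.H21.Poly.Flex2

/-! Flexible sets of density `exp (- 2 ^ (C D))` from the embedding with good histories
(MP_53afc0_co). -/

namespace Pool.Agent.H80.RR

open Finset Classical Pool.Agent.H21.Poly Pool.Agent.H21.Tile

lemma par_ineq_q {q k D L : ℕ} (hq : 0 < q) (hk : 0 < k) (hD : 0 < D)
    (hL : 2 ^ (q * k) * (8 * q * k ^ 2 * D ^ 2) * k ^ (q * k * D) < 2 ^ L) (rho : ℝ)
    (hrho : rho = 1 / 2 ^ L / (4 * D)) :
    (2:ℝ) ^ (q * k * D) * (k * (1 + ((q * k * D : ℕ) : ℝ) * k ^ (q * k * D) / rho) ^ D) <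
      2 ^ (L * (2 * D)) := by
  have hqR : (1:ℝ) ≤ q := by exact_mod_cast hq
  have hkR : (1:ℝ) ≤ k := by exact_mod_cast hk
  have hDR : (1:ℝ) ≤ D := by exact_mod_cast hD
  have hLR : (2:ℝ) ^ (q * k) * (8 * q * k ^ 2 * D ^ 2) * k ^ (q * k * D) < 2 ^ L := by
    exact_mod_cast hL
  have h1 : ((q * k * D : ℕ) : ℝ) * k ^ (q * k * D) / rho =
      4 * q * k * D ^ 2 * k ^ (q * k * D) * 2 ^ L := by
    rw [hrho]
    push_cast
    field_simp
  rw [h1]
  have hkP : (1:ℝ) ≤ (k:ℝ) ^ (q * k * D) := one_le_pow₀ hkR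
  have hD2 : (1:ℝ) ≤ (D:ℝ) ^ 2 := one_le_pow₀ hDR
  have h2L : (1:ℝ) ≤ 2 ^ L := one_le_pow₀ (by norm_num)
  have h2 : (1:ℝ) ≤ 4 * q * k * D ^ 2 * k ^ (q * k * D) * 2 ^ L := by
    have e0 : (1:ℝ) ≤ 4 * q := by linarith
    exact one_le_mul_of_one_le_of_one_le (one_le_mul_of_one_le_of_one_le
      (one_le_mul_of_one_le_of_one_le (one_le_mul_of_one_le_of_one_le e0 hkR) hD2) hkP) h2L
  have h3 : 1 + 4 * q * k * D ^ 2 * k ^ (q * k * D) * 2 ^ L ≤
      8 * q * k * D ^ 2 * (k:ℝ) ^ (q * k * D) * 2 ^ L := by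
    have : 8 * q * k * D ^ 2 * (k:ℝ) ^ (q * k * D) * 2 ^ L =
      4 * q * k * D ^ 2 * (k:ℝ) ^ (q * k * D) * 2 ^ L +
      4 * q * k * D ^ 2 * (k:ℝ) ^ (q * k * D) * 2 ^ L := by ring
    linarith
  have h4 : (k:ℝ) ≤ k ^ D := le_self_pow₀ hkR (by omega)
  have h5 : (2:ℝ) ^ (q * k * D) = (2 ^ (q * k)) ^ D := by rw [← pow_mul]
  calc (2:ℝ) ^ (q * k * D) * (k * (1 + 4 * q * k * D ^ 2 * k ^ (q * k * D) * 2 ^ L) ^ D)
      ≤ (2 ^ (q * k)) ^ D * (k ^ D * (8 * q * k * D ^ 2 * (k:ℝ) ^ (q * k * D) * 2 ^ L) ^ D) := by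
        rw [h5]
        gcongr
    _ = ((2:ℝ) ^ (q * k) * (8 * q * k ^ 2 * D ^ 2) * k ^ (q * k * D) * 2 ^ L) ^ D := by
        rw [← mul_pow, ← mul_pow]
        congr 1
        ring
    _ < ((2:ℝ) ^ L * 2 ^ L) ^ D := by
        apply pow_lt_pow_left₀ _ (by positivity) (by omega)
        exact mul_lt_mul_of_pos_right hLR (by positivity)
    _ = 2 ^ (L * (2 * D)) := by
        rw [← pow_add, ← pow_mul]
        congr 1
        ring

/-- An initial segment of prescribed size. -/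
lemma initial_seg (T : Finset ℕ) (n : ℕ) : n ≤ T.card →
    ∃ m, (T.filter (fun i => i < m)).card = n := by
  induction n with
  | zero => intro _; exact ⟨0, by simp⟩
  | succ n ih =>
    intro hn
    obtain ⟨m, hm⟩ := ih (by omega)
    have h1 : (T.filter (fun i => ¬ i < m)).Nonempty := by
      rw [← card_pos]
      have := card_filter_add_card_filter_not (s := T) (fun i => i < m)
      omega
    obtain ⟨t, ht, htmin⟩ := exists_min_image (T.filter (fun i => ¬ i < m)) (fun i => i) h1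
    rw [mem_filter] at ht
    refine ⟨t + 1, ?_⟩
    have h2 : T.filter (fun i => i < t + 1) = insert t (T.filter (fun i => i < m)) := by
      ext i
      rw [mem_insert, mem_filter, mem_filter]
      constructor
      · rintro ⟨hi, hit⟩
        by_cases him : i < m
        · exact Or.inr ⟨hi, him⟩
        · have := htmin i (mem_filter.mpr ⟨hi, him⟩)
          left; omega
      · rintro (hi | ⟨hi, him⟩)
        · rw [hi]; exact ⟨ht.1, by omega⟩
        · exact ⟨hi, by omega⟩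
    have hnm : t ∉ T.filter (fun i => i < m) := fun h => ht.2 (mem_filter.mp h).2
    rw [h2, card_insert_of_notMem hnm, hm]

/-- Large independent sets. -/
lemma indep_set {r D : ℕ} (H : SimpleGraph (Fin r))
    (hdeg : ∀ x, (univ.filter (H.Adj x)).card ≤ D) :
    ∃ I : Finset (Fin r), (∀ x ∈ I, ∀ y ∈ I, ¬ H.Adj x y) ∧ r ≤ (D + 1) * I.card := by
  obtain ⟨I, -, hind, hmax⟩ := max_indep H (univ : Finset (Fin r))
  refine ⟨I, hind, ?_⟩
  have h1 : (univ : Finset (Fin r)) ⊆ I.biUnion (fun u => insert u (univ.filter (H.Adj u))) := by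
    intro x _
    rw [mem_biUnion]
    by_cases hx : x ∈ I
    · exact ⟨x, hx, mem_insert_self _ _⟩
    · obtain ⟨u, hu, hux⟩ := hmax x (mem_univ x) hx
      exact ⟨u, hu, mem_insert_of_mem (mem_filter.mpr ⟨mem_univ _, hux.symm⟩)⟩
  have h2 := card_le_card h1
  rw [card_univ, Fintype.card_fin] at h2
  have h3 : (I.biUnion (fun u => insert u (univ.filter (H.Adj u)))).card ≤
      ∑ u ∈ I, (D + 1) := by
    refine card_biUnion_le.trans (sum_le_sum ?_)
    intro u _
    have := hdeg u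
    exact (card_insert_le _ _).trans (by omega)
  rw [sum_const, smul_eq_mul] at h3
  calc r ≤ I.card * (D + 1) := h2.trans h3
    _ = (D + 1) * I.card := mul_comm _ _

/-- A partial embedding with an independent set of vertices which have all large candidate sets in
one common set. -/
theorem partial_emb {α : Type*} [Nonempty α] {k D L : ℕ} (hk : 0 < k) (hD : 0 < D)
    (col : α → α → Fin k) (hsymm : ∀ a b, col a b = col b a)
    (hL : 2 ^ (11 * k) * (8 * 11 * k ^ 2 * D ^ 2) * k ^ (11 * k * D) < 2 ^ L)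
    (S : Finset α) (r : ℕ) (hr : 0 < r) (hS : 16 * 2 ^ L * k ^ (11 * k * D) * r ≤ S.card)
    (H : SimpleGraph (Fin r)) (hdeg : ∀ x, (univ.filter (H.Adj x)).card ≤ D) :
    ∃ (c : Fin k) (Q : Finset (Fin r)) (B : Finset α) (φ : Fin r → α),
      (∀ x ∈ Q, ∀ y ∈ Q, ¬ H.Adj x y) ∧ r ≤ 2 * (D + 1) * Q.card ∧ B ⊆ S ∧
      (∀ x, x ∉ Q → φ x ∈ S) ∧ Set.InjOn φ (univ \ Q : Finset (Fin r)) ∧
      (∀ x, x ∉ Q → ∀ y, y ∉ Q → H.Adj x y → col (φ x) (φ y) = c) ∧
      16 * (r : ℝ) ≤ 1 / 2 ^ L * B.card ∧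
      ∀ x ∈ Q, 1 / 2 ^ L * (B.card : ℝ) ≤
        (B.filter (fun w => ∀ y, H.Adj x y → col (φ y) w = c)).card := by
  have hkR : (1:ℝ) ≤ k := by exact_mod_cast hk
  have hDR : (1:ℝ) ≤ D := by exact_mod_cast hD
  have hrR : (1:ℝ) ≤ r := by exact_mod_cast hr
  have hSne : S.Nonempty := by
    rw [← card_pos]
    refine lt_of_lt_of_le ?_ hS
    positivity
  obtain ⟨rho, hrho⟩ : ∃ rho : ℝ, rho = 1 / 2 ^ L / (4 * D) := ⟨_, rfl⟩
  have hrho0 : 0 < rho := by rw [hrho]; positivity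
  obtain ⟨B, c, h1, -, h3, h4⟩ := good_chain hk col S hSne D (11 * k * D) L (2 * D) rho hrho0
    (par_ineq_q (by norm_num) hk hD hL rho hrho)
  obtain ⟨c0, -, hc0⟩ := exists_le_card_fiber_of_mul_le_card_of_maps_to (s := range (11 * k * D))
    (t := (univ : Finset (Fin k))) (f := c) (n := 11 * D) (fun _ _ => mem_univ _)
    ⟨⟨0, hk⟩, mem_univ _⟩ (by
      rw [card_univ, Fintype.card_fin, card_range]
      apply le_of_eq
      ring)
  obtain ⟨T, hT⟩ : ∃ T, T = (range (11 * k * D)).filter (fun i => c i = c0) := ⟨_, rfl⟩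
  have hgood : Good (fun x y => col x y = c0) B (1 / 2 ^ L) rho (2 * D) T D ∅ := by
    rw [hT]; exact h4 c0
  have hTc : 11 * D ≤ T.card := by rw [hT]; exact hc0
  have hTr : ∀ i ∈ T, i < 11 * k * D := by
    intro i hi
    rw [hT] at hi
    exact mem_range.mp (mem_filter.mp hi).1
  have hBc : ∀ i ∈ T, 16 * (r : ℝ) ≤ 1 / 2 ^ L * (B i).card := by
    intro i hi
    have h5 : 16 * 2 ^ L * k ^ (11 * k * D) * r ≤ k ^ (11 * k * D) * (B i).card :=
      hS.trans (h3 i (hTr i hi))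
    have h6 : 16 * 2 ^ L * r ≤ (B i).card := by
      apply Nat.le_of_mul_le_mul_left _ (pow_pos hk (11 * k * D))
      calc k ^ (11 * k * D) * (16 * 2 ^ L * r) = 16 * 2 ^ L * k ^ (11 * k * D) * r := by ring
        _ ≤ _ := h5
    have h7 : (16:ℝ) * 2 ^ L * r ≤ (B i).card := by exact_mod_cast h6
    rw [one_div, inv_mul_eq_div, le_div_iff₀ (by positivity)]
    calc 16 * (r : ℝ) * 2 ^ L = 16 * 2 ^ L * r := by ring
      _ ≤ _ := h7
  obtain ⟨m, hm⟩ := initial_seg T (3 * D) (by omega)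
  obtain ⟨I, hind, hIc⟩ := indep_set H hdeg
  obtain ⟨φ, τ, hst⟩ := embed_part (rel := fun x y => col x y = c0)
    (fun x y hxy => by rw [hsymm]; exact hxy) hdeg hgood
    (fun i _ => mul_nonneg hrho0.le (Nat.cast_nonneg _)) (by
      intro i hi
      have h5 := hBc i hi
      have h6 : (D:ℝ) * (rho * (B i).card) = 1 / 4 * (1 / 2 ^ L * (B i).card) := by
        rw [hrho]
        field_simp
      rw [h6, Fintype.card_fin]
      linarith) (univ \ I) (T.filter (fun i => i < m)) (filter_subset _ _) (by omega)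
  -- the later times
  obtain ⟨T2, hT2⟩ : ∃ T2, T2 = T.filter (fun i => ¬ i < m) := ⟨_, rfl⟩
  have hT2T : ∀ i ∈ T2, i ∈ T := by
    intro i hi
    rw [hT2] at hi
    exact (mem_filter.mp hi).1
  have hT2c : 8 * D ≤ T2.card := by
    have := card_filter_add_card_filter_not (s := T) (fun i => i < m)
    rw [hT2]
    omega
  have hτlt : ∀ x ∈ univ \ I, ∀ i ∈ T2, τ x < i := by
    intro x hx i hi
    have e1 := (mem_filter.mp (hst.tim x hx)).2
    rw [hT2] at hi
    have e2 := (mem_filter.mp hi).2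
    omega
  obtain ⟨hs, hhs⟩ : ∃ hs : Fin r → Finset (ℕ × α), hs = fun w => hist H φ τ (univ \ I) w :=
    ⟨_, rfl⟩
  have hbadc : ∀ w ∈ I, (T2.filter (fun i => Bd (fun x y => col x y = c0) B (1 / 2 ^ L) i
      (hs w))).card < 2 * D := by
    intro w hw
    have e1 : (T.filter (fun i => Bd (fun x y => col x y = c0) B (1 / 2 ^ L) i (hs w))).card <
        2 * D := by
      rw [hhs]
      exact Good.down _ (hst.good w (fun h => (mem_sdiff.mp h).2 hw))
    refine lt_of_le_of_lt (card_le_card ?_) e1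
    intro i hi
    rw [mem_filter] at hi ⊢
    exact ⟨hT2T i hi.1, hi.2⟩
  -- a time which is good for most vertices of `I`
  obtain ⟨i0, hi0, hi0c⟩ : ∃ i0 ∈ T2, 4 * (I.filter (fun w => Bd (fun x y => col x y = c0) B
      (1 / 2 ^ L) i0 (hs w))).card ≤ I.card := by
    by_contra hcon
    push Not at hcon
    have hT2ne : T2.Nonempty := by
      rw [← card_pos]; omega
    have e1 : ∑ i ∈ T2, I.card < ∑ i ∈ T2, 4 * (I.filter (fun w => Bd (fun x y => col x y = c0) B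
      (1 / 2 ^ L) i (hs w))).card := sum_lt_sum_of_nonempty hT2ne hcon
    have e2 : ∑ i ∈ T2, (I.filter (fun w => Bd (fun x y => col x y = c0) B
        (1 / 2 ^ L) i (hs w))).card = ∑ w ∈ I, (T2.filter (fun i => Bd (fun x y => col x y = c0) B
        (1 / 2 ^ L) i (hs w))).card := by
      simp only [card_filter]
      exact sum_comm
    have e3 : ∑ w ∈ I, (T2.filter (fun i => Bd (fun x y => col x y = c0) B
        (1 / 2 ^ L) i (hs w))).card ≤ ∑ w ∈ I, 2 * D := sum_le_sum (fun w hw => (hbadc w hw).le)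
    rw [← mul_sum, e2, sum_const, smul_eq_mul] at e1
    rw [sum_const, smul_eq_mul] at e3
    have e4 : 8 * D * I.card ≤ T2.card * I.card := Nat.mul_le_mul_right _ hT2c
    have e5 : 4 * (I.card * (2 * D)) = 8 * D * I.card := by ring
    omega
  obtain ⟨Q, hQ⟩ : ∃ Q, Q = I.filter (fun w => ¬ Bd (fun x y => col x y = c0) B
      (1 / 2 ^ L) i0 (hs w)) := ⟨_, rfl⟩
  have hQI : ∀ x ∈ Q, x ∈ I := by
    intro x hx
    rw [hQ] at hx
    exact (mem_filter.mp hx).1
  have hQc : I.card ≤ 2 * Q.card := by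
    have := card_filter_add_card_filter_not (s := I) (fun w => Bd (fun x y => col x y = c0) B
      (1 / 2 ^ L) i0 (hs w))
    rw [hQ]
    omega
  -- the other vertices of `I`
  have hgt : ∀ w ∈ I \ Q, ∃ i ∈ T2, ¬ Bd (fun x y => col x y = c0) B (1 / 2 ^ L) i (hs w) := by
    intro w hw
    by_contra hcon
    push Not at hcon
    have e1 := hbadc w (mem_sdiff.mp hw).1
    rw [filter_true_of_mem hcon] at e1
    omega
  choose! iw hiw1 hiw2 using hgt
  obtain ⟨ψ, hψ1, hψ2⟩ := sdr (I \ Q) (fun w => ((B (iw w)).filter (fun y => ∀ p ∈ hs w,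
      p.1 < iw w → col y p.2 = c0)) \ (univ \ I).image φ) (by
    intro w hw
    have e1 := hiw2 w hw
    unfold Bd at e1
    push Not at e1
    have e2 := hBc _ (hT2T _ (hiw1 w hw))
    have e3 : ((B (iw w)).filter (fun y => ∀ p ∈ hs w, p.1 < iw w → col y p.2 = c0)).card ≤
        (((B (iw w)).filter (fun y => ∀ p ∈ hs w, p.1 < iw w → col y p.2 = c0)) \
          (univ \ I).image φ).card + ((univ \ I).image φ).card := by
      refine (card_le_card ?_).trans (card_union_le _ _)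
      intro y hy
      by_cases hyI : y ∈ (univ \ I).image φ
      · exact mem_union_right _ hyI
      · exact mem_union_left _ (mem_sdiff.mpr ⟨hy, hyI⟩)
    have e4 : ((univ \ I).image φ).card ≤ r := by
      have := (card_image_le (s := univ \ I) (f := φ)).trans (card_le_univ (univ \ I))
      rwa [Fintype.card_fin] at this
    have e5 : (I \ Q).card ≤ r := by
      have := card_le_univ (I \ Q)
      rwa [Fintype.card_fin] at this
    have e6 : 16 * (r:ℝ) ≤ ((B (iw w)).filter (fun y => ∀ p ∈ hs w, p.1 < iw w →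
        col y p.2 = c0)).card := by
      refine e2.trans (le_trans e1 ?_)
      apply le_of_eq
      congr 2
    have e7 : 16 * r ≤ ((B (iw w)).filter (fun y => ∀ p ∈ hs w, p.1 < iw w →
        col y p.2 = c0)).card := by exact_mod_cast e6
    omega)
  have hψ3 : ∀ w ∈ I \ Q, ψ w ∈ B (iw w) ∧ (∀ p ∈ hs w, p.1 < iw w → col (ψ w) p.2 = c0) ∧
      ψ w ∉ (univ \ I).image φ := by
    intro w hw
    have e1 := mem_sdiff.mp (hψ1 w hw)
    have e2 := mem_filter.mp e1.1
    exact ⟨e2.1, e2.2, e1.2⟩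
  have hhsm : ∀ w, ∀ y ∈ univ \ I, H.Adj w y → (τ y, φ y) ∈ hs w := by
    intro w y hy hwy
    rw [hhs]
    exact mem_image_of_mem (fun u => (τ u, φ u)) (mem_filter.mpr ⟨hy, hwy⟩)
  refine ⟨c0, Q, B i0, fun x => if x ∈ I then ψ x else φ x, ?_, ?_, ?_, ?_, ?_, ?_, ?_, ?_⟩
  · intro x hx y hy
    exact hind x (hQI x hx) y (hQI y hy)
  · calc r ≤ (D + 1) * I.card := hIc
      _ ≤ (D + 1) * (2 * Q.card) := Nat.mul_le_mul_left _ hQc
      _ = 2 * (D + 1) * Q.card := by ring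
  · exact h1 _ (hTr _ (hT2T _ hi0))
  · intro x hx
    beta_reduce
    split_ifs with hxI
    · have hxIQ := mem_sdiff.mpr ⟨hxI, hx⟩
      exact h1 _ (hTr _ (hT2T _ (hiw1 x hxIQ))) (hψ3 x hxIQ).1
    · have hxV : x ∈ univ \ I := mem_sdiff.mpr ⟨mem_univ _, hxI⟩
      have e1 := hst.tim x hxV
      exact h1 _ (hTr _ (mem_filter.mp e1).1) (hst.mem x hxV)
  · intro x hx y hy hxy
    rw [mem_coe, mem_sdiff] at hx hy
    beta_reduce at hxy
    by_cases hxI : x ∈ I
    · by_cases hyI : y ∈ I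
      · rw [if_pos hxI, if_pos hyI] at hxy
        exact hψ2 (mem_coe.mpr (mem_sdiff.mpr ⟨hxI, hx.2⟩))
          (mem_coe.mpr (mem_sdiff.mpr ⟨hyI, hy.2⟩)) hxy
      · rw [if_pos hxI, if_neg hyI] at hxy
        exfalso
        apply (hψ3 x (mem_sdiff.mpr ⟨hxI, hx.2⟩)).2.2
        rw [hxy]
        exact mem_image_of_mem φ (mem_sdiff.mpr ⟨mem_univ _, hyI⟩)
    · by_cases hyI : y ∈ I
      · rw [if_neg hxI, if_pos hyI] at hxy
        exfalso
        apply (hψ3 y (mem_sdiff.mpr ⟨hyI, hy.2⟩)).2.2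
        rw [← hxy]
        exact mem_image_of_mem φ (mem_sdiff.mpr ⟨mem_univ _, hxI⟩)
      · rw [if_neg hxI, if_neg hyI] at hxy
        exact hst.inj (mem_coe.mpr (mem_sdiff.mpr ⟨mem_univ _, hxI⟩))
          (mem_coe.mpr (mem_sdiff.mpr ⟨mem_univ _, hyI⟩)) hxy
  · intro x hx y hy hxy
    beta_reduce
    by_cases hxI : x ∈ I
    · by_cases hyI : y ∈ I
      · exact absurd hxy (hind x hxI y hyI)
      · rw [if_pos hxI, if_neg hyI]
        have hyV : y ∈ univ \ I := mem_sdiff.mpr ⟨mem_univ _, hyI⟩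
        have hxIQ := mem_sdiff.mpr ⟨hxI, hx⟩
        exact (hψ3 x hxIQ).2.1 _ (hhsm x y hyV hxy) (hτlt y hyV _ (hiw1 x hxIQ))
    · by_cases hyI : y ∈ I
      · rw [if_neg hxI, if_pos hyI, hsymm]
        have hxV : x ∈ univ \ I := mem_sdiff.mpr ⟨mem_univ _, hxI⟩
        have hyIQ := mem_sdiff.mpr ⟨hyI, hy⟩
        exact (hψ3 y hyIQ).2.1 _ (hhsm y x hxV hxy.symm) (hτlt x hxV _ (hiw1 y hyIQ))
      · rw [if_neg hxI, if_neg hyI]
        exact hst.adj x (mem_sdiff.mpr ⟨mem_univ _, hxI⟩) y (mem_sdiff.mpr ⟨mem_univ _, hyI⟩) hxy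
  · exact hBc _ (hT2T _ hi0)
  · intro x hx
    rw [hQ, mem_filter] at hx
    have e1 := hx.2
    unfold Bd at e1
    push Not at e1
    refine e1.trans ?_
    have e2 : ((B i0).filter (fun y => ∀ p ∈ hs x, p.1 < i0 → col y p.2 = c0)) ⊆
        (B i0).filter (fun w => ∀ y, H.Adj x y → col (if y ∈ I then ψ y else φ y) w = c0) := by
      intro w hw
      rw [mem_filter] at hw ⊢
      refine ⟨hw.1, ?_⟩
      intro y hxy
      have hyI : y ∉ I := fun h => hind x hx.1 y h hxy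
      have hyV : y ∈ univ \ I := mem_sdiff.mpr ⟨mem_univ _, hyI⟩
      rw [if_neg hyI, hsymm]
      exact hw.2 _ (hhsm x y hyV hxy) (hτlt y hyV _ hi0)
    have e3 := card_le_card e2
    have e4 : (((B i0).filter (fun y => ∀ p ∈ hs x, p.1 < i0 → col y p.2 = c0)).card : ℝ) ≤
        ((B i0).filter (fun w => ∀ y, H.Adj x y →
          col (if y ∈ I then ψ y else φ y) w = c0)).card := by exact_mod_cast e3
    refine le_trans (le_of_eq ?_) (e4.trans (le_of_eq ?_))
    · congr 2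
    · congr 2

/-- Flexible sets, with all parameters. -/
theorem flexR {α : Type*} [Nonempty α] {k D K L : ℕ} (hk : 0 < k) (hD : 0 < D) (hK : 0 < K)
    (F : (r : ℕ) → SimpleGraph (Fin r)) (hdeg : ∀ r x, (univ.filter ((F r).Adj x)).card ≤ D)
    (col : α → α → Fin k) (hsymm : ∀ a b, col a b = col b a)
    (hL : 2 ^ (11 * k) * (8 * 11 * k ^ 2 * D ^ 2) * k ^ (11 * k * D) < 2 ^ L)
    (d : ℝ) (hd : d = 1 / 2 ^ (L + 1)) (m2 : ℕ) (hm2 : 1 < (1 + (d / 16) ^ 2 / 2) ^ m2 * d)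
    (Kr : ℕ) (hKr : Kr = 16 * 2 ^ L * k ^ (11 * k * D))
    (σ : ℝ) (hσ : σ = d * (d / 16) ^ m2 / (64 * (K + 1) * Kr * (D + 1))) :
    FlexProp F col K σ := by
  intro S hS
  have hKR : (1:ℝ) ≤ K := by exact_mod_cast hK
  have hDR : (1:ℝ) ≤ D := by exact_mod_cast hD
  have hKrpos : 0 < Kr := by rw [hKr]; positivity
  have hKrR : (1:ℝ) ≤ Kr := by exact_mod_cast hKrpos
  have hd0 : 0 < d := by rw [hd]; positivity
  have hd1 : d ≤ 1 := by
    rw [hd, div_le_one (by positivity)]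
    exact one_le_pow₀ (by norm_num)
  have hpd : (d / 16) ^ m2 ≤ 1 := pow_le_one₀ (by positivity) (by linarith)
  have hpd0 : 0 < (d / 16) ^ m2 := by positivity
  have hσ0 : 0 < σ := by rw [hσ]; positivity
  have hσK : σ * Kr ≤ 1 := by
    rw [hσ, div_mul_eq_mul_div, div_le_one (by positivity)]
    have h1 : d * (d / 16) ^ m2 ≤ 1 := by
      calc d * (d / 16) ^ m2 ≤ 1 * 1 := by gcongr
        _ = 1 := by norm_num
    have h2 : (1:ℝ) ≤ 64 * (K + 1) * (D + 1) := by nlinarith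
    calc d * (d / 16) ^ m2 * Kr ≤ 1 * Kr := by gcongr
      _ ≤ (64 * (K + 1) * (D + 1)) * Kr := by gcongr
      _ = _ := by ring
  have hScard : (0:ℝ) ≤ S.card := Nat.cast_nonneg _
  have hKrS : Kr ≤ S.card := by
    have h1 : (Kr : ℝ) ≤ S.card := by
      calc (Kr : ℝ) = Kr * 1 := (mul_one _).symm
        _ ≤ Kr * (σ * S.card) := by gcongr
        _ = (σ * Kr) * S.card := by ring
        _ ≤ 1 * S.card := by gcongr
        _ = S.card := one_mul _
    exact_mod_cast h1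
  obtain ⟨r, hr⟩ : ∃ r, r = S.card / Kr := ⟨_, rfl⟩
  have hrpos : 0 < r := by rw [hr]; exact Nat.div_pos hKrS hKrpos
  have hr1 : Kr * r ≤ S.card := by rw [hr]; exact Nat.mul_div_le _ _
  have hr2 : S.card ≤ 2 * Kr * r := by
    have h1 : S.card < Kr * r + Kr := by
      have := Nat.mod_lt S.card hKrpos
      have h2 := Nat.div_add_mod S.card Kr
      rw [hr]
      omega
    have h2 : Kr * 1 ≤ Kr * r := Nat.mul_le_mul_left _ hrpos
    calc S.card ≤ Kr * r + Kr := h1.le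
      _ ≤ Kr * r + Kr * r := by omega
      _ = 2 * Kr * r := by ring
  have hrR : (1:ℝ) ≤ r := by exact_mod_cast hrpos
  obtain ⟨c, Q, B, φ, hQind, hQc, hBS, hφS, hφinj, hφcol, hBr, hcand⟩ := partial_emb hk hD col
    hsymm hL S r hrpos (by rw [← hKr]; exact hr1) (F r) (hdeg r)
  have hQSH : ∀ x, x ∈ Q ↔ x ∉ univ \ Q := by
    intro x
    simp
  have hQpos : 0 < Q.card := by
    by_contra hcon
    have : Q.card = 0 := by omega
    rw [this, mul_zero] at hQc
    omega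
  obtain ⟨A, hA⟩ : ∃ A, A = B \ (univ \ Q).image φ := ⟨_, rfl⟩
  have him : ((univ \ Q).image φ).card ≤ r := by
    have := (card_image_le (s := univ \ Q) (f := φ)).trans (card_le_univ (univ \ Q))
    rwa [Fintype.card_fin] at this
  have hBA : (B.card : ℝ) ≤ A.card + r := by
    have h1 : B.card ≤ A.card + ((univ \ Q).image φ).card := by
      rw [hA]
      refine (card_le_card ?_).trans (card_union_le _ _)
      intro y hy
      by_cases hy2 : y ∈ (univ \ Q).image φ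
      · exact mem_union_right _ hy2
      · exact mem_union_left _ (mem_sdiff.mpr ⟨hy, hy2⟩)
    have h2 : B.card ≤ A.card + r := h1.trans (by omega)
    exact_mod_cast h2
  have hAB : (A.card : ℝ) ≤ B.card := by
    rw [hA]; exact_mod_cast card_le_card sdiff_subset
  have hbe : 1 / 2 ^ L * (B.card : ℝ) = 2 * d * B.card := by
    rw [hd, pow_succ]
    field_simp
  rw [hbe] at hBr
  have hB0 : (0:ℝ) ≤ B.card := Nat.cast_nonneg _
  have hBr2 : 16 * (r:ℝ) ≤ 2 * B.card := by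
    have : 2 * d * (B.card : ℝ) ≤ 2 * 1 * B.card := by gcongr
    linarith
  obtain ⟨g, hg⟩ : ∃ g : ℕ, g = ⌈σ * S.card⌉₊ := ⟨_, rfl⟩
  have hg1 : σ * S.card ≤ g := by rw [hg]; exact Nat.le_ceil _
  have hg2 : (g:ℝ) ≤ 2 * (σ * S.card) := by
    have := Nat.ceil_lt_add_one (show 0 ≤ σ * S.card by positivity)
    rw [← hg] at this
    linarith
  have hgR : (1:ℝ) ≤ g := hS.trans hg1
  have hgh : (K + 1) * g ≤ d / 8 * ((d / 16) ^ m2 * (S.card / (4 * Kr * (D + 1)))) := by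
    calc (K + 1) * (g:ℝ) ≤ (K + 1) * (2 * (σ * S.card)) := by gcongr
      _ = d / 8 * ((d / 16) ^ m2 * (S.card / (4 * Kr * (D + 1)))) := by
          rw [hσ]; field_simp; ring
  have hQR : (S.card : ℝ) / (4 * Kr * (D + 1)) ≤ Q.card := by
    rw [div_le_iff₀ (by positivity)]
    have h1 : S.card ≤ Q.card * (4 * Kr * (D + 1)) := by
      calc S.card ≤ 2 * Kr * r := hr2
        _ ≤ 2 * Kr * (2 * (D + 1) * Q.card) := Nat.mul_le_mul_left _ hQc
        _ = Q.card * (4 * Kr * (D + 1)) := by ring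
    exact_mod_cast h1
  obtain ⟨Φ, X, hΦA, hXA, hΦX, hKg, hmono⟩ := flex_of_cand (K := K) F col hsymm c r Q (univ \ Q)
    hQSH hQind (card_pos.mp hQpos) φ (by exact hφinj) (by
      intro x hx y hy hxy
      exact hφcol x (mem_sdiff.mp hx).2 y (mem_sdiff.mp hy).2 hxy) A (by
      intro x hx h
      rw [hA, mem_sdiff] at h
      exact h.2 (mem_image_of_mem φ hx)) d hd0 hd1 (by
      intro x hx
      have h2 := hcand x hx
      rw [hbe] at h2
      have h3 : ((B.filter (fun w => ∀ y, (F r).Adj x y → col (φ y) w = c)).card : ℝ) ≤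
          ((A.filter (fun w => ∀ y ∈ univ \ Q, (F r).Adj x y → col (φ y) w = c)).card : ℝ) + r := by
        have h4 : (B.filter (fun w => ∀ y, (F r).Adj x y → col (φ y) w = c)).card ≤
            (A.filter (fun w => ∀ y ∈ univ \ Q, (F r).Adj x y → col (φ y) w = c)).card +
            ((univ \ Q).image φ).card := by
          refine (card_le_card ?_).trans (card_union_le _ _)
          intro w hw
          rw [mem_filter] at hw
          rw [mem_union, mem_filter, hA, mem_sdiff]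
          by_cases hwi : w ∈ (univ \ Q).image φ
          · exact Or.inr hwi
          · exact Or.inl ⟨⟨hw.1, hwi⟩, fun y _ hxy => hw.2 y hxy⟩
        have h5 := h4.trans (Nat.add_le_add_left him _)
        exact_mod_cast h5
      have h4 : d * (A.card : ℝ) ≤ d * B.card := by gcongr
      linarith) (by
      have h1 : d * ((B.card : ℝ) / 2) ≤ d * A.card := by
        apply mul_le_mul_of_nonneg_left _ hd0.le
        linarith
      linarith) m2 hm2 ((d / 16) ^ m2 * (S.card / (4 * Kr * (D + 1)))) (by gcongr) (by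
      have h1 : (2:ℝ) ≤ (K + 1) * g := by nlinarith
      linarith) g hgh
  refine ⟨Φ, X, g, ?_, ?_, hΦX, hg1, hKg, hmono⟩
  · refine hΦA.trans ?_
    rw [hA]
    exact sdiff_subset.trans hBS
  · refine hXA.trans (union_subset ?_ ?_)
    · intro y hy
      rw [mem_image] at hy
      obtain ⟨x, hx, rfl⟩ := hy
      exact hφS x (mem_sdiff.mp hx).2
    · rw [hA]
      exact sdiff_subset.trans hBS

lemma FlexProp_mono {α : Type*} {k K : ℕ} {F : (r : ℕ) → SimpleGraph (Fin r)}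
    {col : α → α → Fin k} {σ σ' : ℝ} (h : FlexProp F col K σ) (hσ : σ' ≤ σ) :
    FlexProp F col K σ' := by
  intro S hS
  have h1 : σ' * S.card ≤ σ * S.card := mul_le_mul_of_nonneg_right hσ (Nat.cast_nonneg _)
  obtain ⟨Φ, X, g, h2, h3, h4, h5, h6, h7⟩ := h S (hS.trans h1)
  exact ⟨Φ, X, g, h2, h3, h4, h1.trans h5, h6, h7⟩

lemma LinRam_mono {α : Type*} {k K K' : ℕ} {F : (r : ℕ) → SimpleGraph (Fin r)}
    {col : α → α → Fin k} (h : LinRam F col K) (hK : K ≤ K') : LinRam F col K' := by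
  intro S b hb hS
  exact h S b hb ((Nat.mul_le_mul_right b hK).trans hS)

lemma exists_m2 (L : ℕ) (d : ℝ) (hd : d = 1 / 2 ^ (L + 1)) :
    1 < (1 + (d / 16) ^ 2 / 2) ^ ((L + 2) * 2 ^ (2 * L + 11)) * d := by
  have hx : (d / 16) ^ 2 / 2 = 1 / 2 ^ (2 * L + 11) := by
    rw [hd]
    have : (2:ℝ) ^ (2 * L + 11) = (2 ^ (L + 1)) ^ 2 * 2 ^ 9 := by
      rw [← pow_mul, ← pow_add]
      congr 1
      ring
    rw [this]
    field_simp
    norm_num
  rw [hx]
  have h1 : (2:ℝ) ≤ (1 + 1 / 2 ^ (2 * L + 11)) ^ (2 ^ (2 * L + 11)) := by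
    have h2 := one_add_mul_le_pow (a := (1:ℝ) / 2 ^ (2 * L + 11))
      (by have : (0:ℝ) ≤ 1 / 2 ^ (2 * L + 11) := by positivity
          linarith) (2 ^ (2 * L + 11))
    have h3 : ((2 ^ (2 * L + 11) : ℕ) : ℝ) * (1 / 2 ^ (2 * L + 11)) = 1 := by
      push_cast
      field_simp
    rw [h3] at h2
    linarith
  have h2 : (2:ℝ) ^ (L + 2) ≤ (1 + 1 / 2 ^ (2 * L + 11)) ^ ((L + 2) * 2 ^ (2 * L + 11)) := by
    rw [mul_comm (L + 2), pow_mul]
    exact pow_le_pow_left₀ (by norm_num) h1 _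
  rw [hd]
  calc (1:ℝ) < 2 ^ (L + 2) * (1 / 2 ^ (L + 1)) := by
        rw [pow_succ 2 (L + 1)]
        field_simp
        norm_num
    _ ≤ (1 + 1 / 2 ^ (2 * L + 11)) ^ ((L + 2) * 2 ^ (2 * L + 11)) * (1 / 2 ^ (L + 1)) := by
        gcongr

/-- Linear Ramsey numbers and flexible sets for bounded degree graphs. -/
theorem lin_flex (k : ℕ) (hk : 0 < k) : ∃ C : ℕ, ∀ D : ℕ, 1 ≤ D →
    ∀ {α : Type*} [Nonempty α] (F : (r : ℕ) → SimpleGraph (Fin r)),
    (∀ r x, (univ.filter ((F r).Adj x)).card ≤ D) →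
    ∀ col : α → α → Fin k, (∀ a b, col a b = col b a) →
    LinRam F col (2 ^ (C * D)) ∧ FlexProp F col (2 ^ (C * D)) ((1 / 2) ^ (2 ^ (C * D))) := by
  refine ⟨60 * k ^ 2 + 60 * k + 60, ?_⟩
  intro D hD α _ F hdeg col hsymm
  obtain ⟨C, hC⟩ : ∃ C, C = 60 * k ^ 2 + 60 * k + 60 := ⟨_, rfl⟩
  rw [← hC]
  have hk2 : k ≤ 2 ^ k := Nat.lt_two_pow_self.le
  have hD2 : D ≤ 2 ^ D := Nat.lt_two_pow_self.le
  have hD3 : D + 1 ≤ 2 ^ D := Nat.lt_two_pow_self
  obtain ⟨L, hL⟩ : ∃ L, L = 13 * k + 8 + 2 * D + 11 * k ^ 2 * D := ⟨_, rfl⟩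
  have hkP : k ^ (11 * k * D) ≤ 2 ^ (11 * k ^ 2 * D) := by
    calc k ^ (11 * k * D) ≤ (2 ^ k) ^ (11 * k * D) := Nat.pow_le_pow_left hk2 _
      _ = 2 ^ (11 * k ^ 2 * D) := by
          rw [← pow_mul]
          congr 1
          ring
  have hL2 : 2 ^ (11 * k) * (8 * 11 * k ^ 2 * D ^ 2) * k ^ (11 * k * D) < 2 ^ L := by
    calc 2 ^ (11 * k) * (8 * 11 * k ^ 2 * D ^ 2) * k ^ (11 * k * D) ≤
        2 ^ (11 * k) * (2 ^ 7 * (2 ^ k) ^ 2 * (2 ^ D) ^ 2) * 2 ^ (11 * k ^ 2 * D) := by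
          gcongr
          norm_num
      _ = 2 ^ (13 * k + 7 + 2 * D + 11 * k ^ 2 * D) := by
          rw [← pow_mul, ← pow_mul, ← pow_add, ← pow_add, ← pow_add, ← pow_add]
          congr 1
          ring
      _ < 2 ^ L := Nat.pow_lt_pow_right (by norm_num) (by omega)
  have hkk : k ≤ k ^ 2 * D := by
    calc k = k * 1 * 1 := by ring
      _ ≤ k * k * D := Nat.mul_le_mul (Nat.mul_le_mul_left _ hk) hD
      _ = k ^ 2 * D := by ring
  have hkD : k ≤ k * D := Nat.le_mul_of_pos_right _ hD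
  have hCD : C * D = 60 * (k ^ 2 * D) + 60 * (k * D) + 60 * D := by rw [hC]; ring
  have hLD : L = 13 * k + 8 + 2 * D + 11 * (k ^ 2 * D) := by rw [hL]; ring
  have hCL : 4 * L + 20 ≤ C * D := by omega
  constructor
  · apply LinRam_mono (linRam hk hD F hdeg col hsymm)
    apply Nat.pow_le_pow_right (by norm_num)
    have h1 : Nat.clog 2 k ≤ k := by
      rw [Nat.clog_le_iff_le_pow (by norm_num)]
      exact hk2
    calc 15 * k * Nat.clog 2 k * D ≤ 15 * k * k * D := by gcongr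
      _ = 15 * (k ^ 2 * D) := by ring
      _ ≤ C * D := by omega
  · obtain ⟨d, hd⟩ : ∃ d : ℝ, d = 1 / 2 ^ (L + 1) := ⟨_, rfl⟩
    obtain ⟨m2, hm2⟩ : ∃ m2, m2 = (L + 2) * 2 ^ (2 * L + 11) := ⟨_, rfl⟩
    have hm2' : 1 < (1 + (d / 16) ^ 2 / 2) ^ m2 * d := by
      rw [hm2]
      exact exists_m2 L d hd
    apply FlexProp_mono (flexR (K := 2 ^ (C * D)) hk hD (by positivity) F hdeg col hsymm hL2 d hd
      m2 hm2' _ rfl _ rfl)
    have hd16 : d / 16 = (1 / 2) ^ (L + 5) := by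
      rw [hd, one_div_pow, pow_add 2 L 5, pow_add 2 L 1]
      norm_num
      ring
    have hdh : d = (1 / 2) ^ (L + 1) := by rw [hd, one_div_pow]
    have hden : (64:ℝ) * (((2 ^ (C * D) : ℕ) : ℝ) + 1) *
        ((16 * 2 ^ L * k ^ (11 * k * D) : ℕ) : ℝ) * ((D : ℝ) + 1) ≤
        2 ^ (6 + (C * D + 1) + (4 + L + 11 * k ^ 2 * D) + D) := by
      have e1 : (2 ^ (C * D) + 1 : ℕ) ≤ 2 ^ (C * D + 1) := by
        have : 1 ≤ 2 ^ (C * D) := Nat.one_le_two_pow
        rw [pow_succ]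
        omega
      have e2 : 16 * 2 ^ L * k ^ (11 * k * D) ≤ 2 ^ (4 + L + 11 * k ^ 2 * D) := by
        calc 16 * 2 ^ L * k ^ (11 * k * D) ≤ 16 * 2 ^ L * 2 ^ (11 * k ^ 2 * D) :=
              Nat.mul_le_mul_left _ hkP
          _ = 2 ^ (4 + L + 11 * k ^ 2 * D) := by
              rw [pow_add, pow_add]
              norm_num
      have e3 : 64 * (2 ^ (C * D) + 1) * (16 * 2 ^ L * k ^ (11 * k * D)) * (D + 1) ≤
          2 ^ (6 + (C * D + 1) + (4 + L + 11 * k ^ 2 * D) + D) := by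
        calc 64 * (2 ^ (C * D) + 1) * (16 * 2 ^ L * k ^ (11 * k * D)) * (D + 1) ≤
            2 ^ 6 * 2 ^ (C * D + 1) * 2 ^ (4 + L + 11 * k ^ 2 * D) * 2 ^ D := by
              gcongr
              norm_num
          _ = _ := by rw [← pow_add, ← pow_add, ← pow_add]
      exact_mod_cast e3
    have hN : (L + 1) + (L + 5) * m2 + (6 + (C * D + 1) + (4 + L + 11 * k ^ 2 * D) + D) ≤
        2 ^ (C * D) := by
      have e1 : (L + 5) * m2 ≤ 2 ^ (4 * L + 18) := by
        have f1 : L + 5 ≤ 2 ^ (L + 5) := Nat.lt_two_pow_self.le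
        have f2 : L + 2 ≤ 2 ^ (L + 2) := Nat.lt_two_pow_self.le
        rw [hm2]
        calc (L + 5) * ((L + 2) * 2 ^ (2 * L + 11)) ≤
            2 ^ (L + 5) * (2 ^ (L + 2) * 2 ^ (2 * L + 11)) := by gcongr
          _ = 2 ^ (4 * L + 18) := by
              rw [← pow_add, ← pow_add]
              congr 1
              ring
      have e2 : 4 * 2 ^ (4 * L + 18) ≤ 2 ^ (C * D) := by
        calc 4 * 2 ^ (4 * L + 18) = 2 ^ (4 * L + 20) := by
              rw [show 4 * L + 20 = (4 * L + 18) + 2 by ring, pow_add 2 (4 * L + 18) 2]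
              ring
          _ ≤ _ := Nat.pow_le_pow_right (by norm_num) hCL
      have e3 : 4 * (C * D) ≤ 2 ^ (C * D) := by
        have gen : ∀ n : ℕ, 4 ≤ n → 4 * n ≤ 2 ^ n := by
          intro n hn
          induction n, hn using Nat.le_induction with
          | base => norm_num
          | succ n hn ih =>
            rw [pow_succ]
            omega
        exact gen _ (by omega)
      have e4 : 11 * k ^ 2 * D = 11 * (k ^ 2 * D) := by ring
      rw [e4]
      omega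
    calc ((1:ℝ) / 2) ^ (2 ^ (C * D)) ≤
        (1 / 2) ^ ((L + 1) + (L + 5) * m2 +
          (6 + (C * D + 1) + (4 + L + 11 * k ^ 2 * D) + D)) :=
          pow_le_pow_of_le_one (by norm_num) (by norm_num) hN
      _ = (1 / 2) ^ (L + 1) * ((1 / 2) ^ (L + 5)) ^ m2 /
          2 ^ (6 + (C * D + 1) + (4 + L + 11 * k ^ 2 * D) + D) := by
          rw [pow_add, pow_add (1 / 2 : ℝ) (L + 1), pow_mul, div_eq_mul_inv
            ((1 / 2 : ℝ) ^ (L + 1) * ((1 / 2) ^ (L + 5)) ^ m2), ← inv_pow]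
          norm_num
      _ ≤ _ := by
          rw [hd16, hdh]
          apply div_le_div_of_nonneg_left (by positivity) (by positivity) hden

end Pool.Agent.H80.RR
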