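import Pool.Agent.H80.RR.Chn

/-! Theorem R (MP_53afc0_co), Step 3: the empty history is good. -/

namespace Pool.Agent.H80.RR

open Finset Classical

/-- Hereditarily good histories. -/
def Good {α : Type*} (rel : α → α → Prop) (B : ℕ → Finset α) (be rho : ℝ) (b : ℕ)
    (T : Finset ℕ) : ℕ → Finset (ℕ × α) → Prop
  | 0, h => (T.filter (fun i => Bd rel B be i h)).card < b
  | s + 1, h => Good rel B be rho b T s h ∧ ∀ i ∈ T,
      (((B i).filter (fun x => ¬ Good rel B be rho b T s (insert (i, x) h))).card : ℝ) ≤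
        rho * (B i).card

/-- Weighted sums over the extensions of a history by at most `s` pairs. -/
noncomputable def KK {α : Type*} (w : ℝ) (P : ℕ) (S : Finset α) :
    ℕ → (Finset (ℕ × α) → ℝ) → Finset (ℕ × α) → ℝ
  | 0, f, h => f h
  | s + 1, f, h => KK w P S s f h + w * ∑ t ∈ range P, ∑ x ∈ S, KK w P S s f (insert (t, x) h)

lemma KK_mono {α : Type*} {w : ℝ} (hw : 0 ≤ w) (P : ℕ) (S : Finset α) (s : ℕ)
    (f g : Finset (ℕ × α) → ℝ) (hfg : ∀ h, f h ≤ g h) : ∀ h, KK w P S s f h ≤ KK w P S s g h := by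
  induction s with
  | zero => exact hfg
  | succ s ih =>
    intro h
    unfold KK
    have h1 : ∑ t ∈ range P, ∑ x ∈ S, KK w P S s f (insert (t, x) h) ≤
        ∑ t ∈ range P, ∑ x ∈ S, KK w P S s g (insert (t, x) h) :=
      sum_le_sum (fun t _ => sum_le_sum (fun x _ => ih _))
    have h2 := mul_le_mul_of_nonneg_left h1 hw
    have h3 := ih h
    linarith

lemma KK_add {α : Type*} (w : ℝ) (P : ℕ) (S : Finset α) (s : ℕ)
    (f g : Finset (ℕ × α) → ℝ) : ∀ h, KK w P S s (fun x => f x + g x) h =
      KK w P S s f h + KK w P S s g h := by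
  induction s with
  | zero => intro h; rfl
  | succ s ih =>
    intro h
    unfold KK
    rw [ih h]
    have h1 : ∑ t ∈ range P, ∑ x ∈ S, KK w P S s (fun x => f x + g x) (insert (t, x) h) =
        ∑ t ∈ range P, ∑ x ∈ S, KK w P S s f (insert (t, x) h) +
        ∑ t ∈ range P, ∑ x ∈ S, KK w P S s g (insert (t, x) h) := by
      rw [← sum_add_distrib]
      apply sum_congr rfl
      intro t _
      rw [← sum_add_distrib]
      apply sum_congr rfl
      intro x _
      exact ih _
    rw [h1]
    ring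

lemma KK_smul {α : Type*} (w : ℝ) (P : ℕ) (S : Finset α) (s : ℕ) (a : ℝ)
    (f : Finset (ℕ × α) → ℝ) : ∀ h, KK w P S s (fun x => a * f x) h = a * KK w P S s f h := by
  induction s with
  | zero => intro h; rfl
  | succ s ih =>
    intro h
    unfold KK
    rw [ih h]
    have h1 : ∑ t ∈ range P, ∑ x ∈ S, KK w P S s (fun x => a * f x) (insert (t, x) h) =
        a * ∑ t ∈ range P, ∑ x ∈ S, KK w P S s f (insert (t, x) h) := by
      rw [mul_sum]
      apply sum_congr rfl
      intro t _
      rw [mul_sum]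
      apply sum_congr rfl
      intro x _
      exact ih _
    rw [h1]
    ring

lemma KK_one {α : Type*} (w : ℝ) (P : ℕ) (S : Finset α) (s : ℕ) :
    ∀ h, KK w P S s (fun _ => 1) h = (1 + w * (P * S.card)) ^ s := by
  induction s with
  | zero => intro h; rw [pow_zero]; rfl
  | succ s ih =>
    intro h
    unfold KK
    rw [ih h]
    have h1 : ∑ t ∈ range P, ∑ x ∈ S, KK w P S s (fun _ => 1) (insert (t, x) h) =
        P * (S.card * (1 + w * (P * S.card)) ^ s) := by
      have h2 : ∀ t ∈ range P, ∑ x ∈ S, KK w P S s (fun _ => 1) (insert (t, x) h) =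
          S.card * (1 + w * (P * S.card)) ^ s := by
        intro t _
        rw [sum_congr rfl (fun x _ => ih (insert (t, x) h)), sum_const, nsmul_eq_mul]
      rw [sum_congr rfl h2, sum_const, nsmul_eq_mul, card_range]
    rw [h1, pow_succ]
    ring

lemma KK_nonneg {α : Type*} {w : ℝ} (hw : 0 ≤ w) (P : ℕ) (S : Finset α) (s : ℕ)
    (f : Finset (ℕ × α) → ℝ) (hf : ∀ h, 0 ≤ f h) : ∀ h, 0 ≤ KK w P S s f h := by
  induction s with
  | zero => exact hf
  | succ s ih =>
    intro h
    unfold KK
    have h1 : 0 ≤ ∑ t ∈ range P, ∑ x ∈ S, KK w P S s f (insert (t, x) h) :=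
      sum_nonneg (fun t _ => sum_nonneg (fun x _ => ih _))
    exact add_nonneg (ih h) (mul_nonneg hw h1)

lemma notGood {α : Type*} (rel : α → α → Prop) (B : ℕ → Finset α) (be rho : ℝ) (b : ℕ)
    (T : Finset ℕ) (P : ℕ) (hT : T ⊆ range P) (S : Finset α) (hB : ∀ i ∈ T, B i ⊆ S)
    {w : ℝ} (hw0 : 0 ≤ w) (hw : ∀ i ∈ T, 1 ≤ w * (rho * (B i).card))
    (f : Finset (ℕ × α) → ℝ) (hf0 : ∀ h, 0 ≤ f h) (M : ℝ) (hM : 0 ≤ M)
    (hf : ∀ h : Finset (ℕ × α), (∀ p ∈ h, p.1 < P → p.2 ∈ B p.1) →
      ¬ Good rel B be rho b T 0 h → M ≤ f h) (s : ℕ) :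
    ∀ h : Finset (ℕ × α), (∀ p ∈ h, p.1 < P → p.2 ∈ B p.1) →
      ¬ Good rel B be rho b T s h → M ≤ KK w P S s f h := by
  induction s with
  | zero => exact hf
  | succ s ih =>
    intro h hv hng
    have hnn : 0 ≤ w * ∑ t ∈ range P, ∑ x ∈ S, KK w P S s f (insert (t, x) h) :=
      mul_nonneg hw0 (sum_nonneg (fun t _ => sum_nonneg (fun x _ => KK_nonneg hw0 _ _ _ _ hf0 _)))
    have hnn2 := KK_nonneg hw0 P S s f hf0 h
    unfold KK
    by_cases hg : Good rel B be rho b T s h
    · have h1 : ∃ i ∈ T, rho * (B i).card <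
          ((B i).filter (fun x => ¬ Good rel B be rho b T s (insert (i, x) h))).card := by
        by_contra hcon
        push Not at hcon
        exact hng ⟨hg, hcon⟩
      obtain ⟨i, hi, hi2⟩ := h1
      have hiP := hT hi
      have h2 : ∑ x ∈ (B i).filter (fun x => ¬ Good rel B be rho b T s (insert (i, x) h)), M ≤
          ∑ x ∈ S, KK w P S s f (insert (i, x) h) := by
        calc ∑ x ∈ (B i).filter (fun x => ¬ Good rel B be rho b T s (insert (i, x) h)), M ≤
            ∑ x ∈ (B i).filter (fun x => ¬ Good rel B be rho b T s (insert (i, x) h)),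
              KK w P S s f (insert (i, x) h) := by
              apply sum_le_sum
              intro x hx
              rw [mem_filter] at hx
              apply ih _ _ hx.2
              intro p hp hpP
              rw [mem_insert] at hp
              rcases hp with hp | hp
              · rw [hp]; exact hx.1
              · exact hv p hp hpP
          _ ≤ ∑ x ∈ S, KK w P S s f (insert (i, x) h) := by
              apply sum_le_sum_of_subset_of_nonneg
              · exact (filter_subset _ _).trans (hB i hi)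
              · intro x _ _
                exact KK_nonneg hw0 _ _ _ _ hf0 _
      have h3 : ∑ x ∈ S, KK w P S s f (insert (i, x) h) ≤
          ∑ t ∈ range P, ∑ x ∈ S, KK w P S s f (insert (t, x) h) :=
        single_le_sum (f := fun t => ∑ x ∈ S, KK w P S s f (insert (t, x) h))
          (fun t _ => sum_nonneg (fun x _ => KK_nonneg hw0 _ _ _ _ hf0 _)) hiP
      rw [sum_const, nsmul_eq_mul] at h2
      have h4 : rho * (B i).card * M ≤
          ∑ t ∈ range P, ∑ x ∈ S, KK w P S s f (insert (t, x) h) :=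
        (mul_le_mul_of_nonneg_right hi2.le hM).trans (h2.trans h3)
      have h5 := mul_le_mul_of_nonneg_left h4 hw0
      have h6 := mul_le_mul_of_nonneg_right (hw i hi) hM
      have h7 : w * (rho * (B i).card * M) = w * (rho * (B i).card) * M := by ring
      linarith
    · have := ih h hv hg
      linarith

/-- A chain for which the empty history is good in every colour. -/
theorem good_chain {α : Type*} {k : ℕ} (hk : 0 < k) (col : α → α → Fin k) (S : Finset α)
    (hS : S.Nonempty) (D P L b : ℕ) (rho : ℝ) (hrho : 0 < rho)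
    (hpar : (2:ℝ) ^ P * (k * (1 + P * k ^ P / rho) ^ D) < 2 ^ (L * b)) :
    ∃ (B : ℕ → Finset α) (c : ℕ → Fin k), (∀ i, i < P → B i ⊆ S) ∧
      (∀ i j, i ≤ j → j < P → B i ⊆ B j) ∧ (∀ i, i < P → S.card ≤ k ^ P * (B i).card) ∧
      ∀ c0 : Fin k, Good (fun x y => col x y = c0) B (1 / 2 ^ L) rho b
        ((range P).filter (fun i => c i = c0)) D ∅ := by
  have hSc : (0:ℝ) < S.card := by exact_mod_cast card_pos.mpr hS
  have hkR : (0:ℝ) < k := by exact_mod_cast hk
  obtain ⟨w, hw⟩ : ∃ w : ℝ, w = k ^ P / (rho * S.card) := ⟨_, rfl⟩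
  have hw0 : 0 ≤ w := by rw [hw]; positivity
  let Φ : ((Fin k × Finset (ℕ × α)) → ℝ) →ₗ[ℝ] ℝ :=
    { toFun := fun E => ∑ c0 : Fin k, KK w P S D (fun h => E (c0, h)) ∅
      map_add' := by
        intro f g
        rw [← sum_add_distrib]
        apply sum_congr rfl
        intro c0 _
        exact KK_add w P S D (fun h => f (c0, h)) (fun h => g (c0, h)) ∅
      map_smul' := by
        intro a f
        rw [RingHom.id_apply, smul_eq_mul, mul_sum]
        apply sum_congr rfl
        intro c0 _
        exact KK_smul w P S D a (fun h => f (c0, h)) ∅ }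
  have hΦ : ∀ E, Φ E = ∑ c0 : Fin k, KK w P S D (fun h => E (c0, h)) ∅ := fun _ => rfl
  obtain ⟨B, c, h1, h2, h3, h4⟩ := chain hk col L P S hS Φ (by
    intro f g hfg
    rw [hΦ, hΦ]
    apply sum_le_sum
    intro c0 _
    exact KK_mono hw0 P S D _ _ (fun h => hfg (c0, h)) ∅)
  refine ⟨B, c, h1, h2, h3, ?_⟩
  intro c0
  by_contra hng
  rw [hΦ, hΦ] at h4
  have h5 : ∑ c1 : Fin k, KK w P S D (fun _ => (1:ℝ)) ∅ = k * (1 + P * k ^ P / rho) ^ D := by
    rw [sum_const, nsmul_eq_mul, card_univ, Fintype.card_fin, KK_one]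
    congr 2
    rw [hw]
    field_simp
  have h6 : (2:ℝ) ^ (L * b) ≤ KK w P S D (fun h => Wt col B c L P (c0, h)) ∅ := by
    apply notGood (fun x y => col x y = c0) B (1 / 2 ^ L) rho b
      ((range P).filter (fun i => c i = c0)) P (filter_subset _ _) S
      (fun i hi => h1 i (mem_range.mp (mem_filter.mp hi).1)) hw0 ?_
      (fun h => Wt col B c L P (c0, h)) (fun h => Wt_nonneg _ _ _ _ _ _) _ (by positivity) ?_ D ∅
      (by simp) hng
    · intro i hi
      have h7 := h3 i (mem_range.mp (mem_filter.mp hi).1)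
      have h8 : (S.card : ℝ) ≤ k ^ P * (B i).card := by exact_mod_cast h7
      rw [hw, div_mul_eq_mul_div, le_div_iff₀ (by positivity), one_mul]
      calc rho * (S.card : ℝ) ≤ rho * (k ^ P * (B i).card) :=
            mul_le_mul_of_nonneg_left h8 hrho.le
        _ = k ^ P * (rho * (B i).card) := by ring
    · intro h hv hb
      have h9 : b ≤ (((range P).filter (fun i => c i = c0)).filter
          (fun i => Bd (fun x y => col x y = c0) B (1 / 2 ^ L) i h)).card := by
        by_contra hcon
        push Not at hcon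
        exact hb hcon
      unfold Wt
      rw [if_pos hv]
      apply pow_le_pow_right₀ (by norm_num)
      apply Nat.mul_le_mul_left
      rw [filter_filter] at h9
      exact h9
  have h7 : KK w P S D (fun h => Wt col B c L P (c0, h)) ∅ ≤
      ∑ c1 : Fin k, KK w P S D (fun h => Wt col B c L P (c1, h)) ∅ :=
    single_le_sum (f := fun c1 => KK w P S D (fun h => Wt col B c L P (c1, h)) ∅)
      (fun c1 _ => KK_nonneg hw0 _ _ _ _ (fun h => Wt_nonneg _ _ _ _ _ _) _) (mem_univ c0)
  rw [h5] at h4
  linarith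

end Pool.Agent.H80.RR
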