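import Pool.Agent.H80.RR.Emb
import Pool.Agent.H21.Tile.Defs

/-! Theorem R (MP_53afc0_co): in every `k`-colouring of the edges of a complete graph on
`2 ^ (15 k clog(k) D) n` vertices there is a monochromatic copy of every graph with `n` vertices
and maximum degree at most `D`. -/

namespace Pool.Agent.H80.RR

open Finset Classical

lemma par_ineq {k D L : ℕ} (hk : 0 < k) (hD : 0 < D)
    (hL : 2 ^ (3 * k) * (24 * k ^ 2 * D ^ 2) * k ^ (3 * k * D) < 2 ^ L) (rho : ℝ)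
    (hrho : rho = 1 / 2 ^ L / (4 * D)) :
    (2:ℝ) ^ (3 * k * D) * (k * (1 + ((3 * k * D : ℕ) : ℝ) * k ^ (3 * k * D) / rho) ^ D) <
      2 ^ (L * (2 * D)) := by
  have hkR : (1:ℝ) ≤ k := by exact_mod_cast hk
  have hDR : (1:ℝ) ≤ D := by exact_mod_cast hD
  have hLR : (2:ℝ) ^ (3 * k) * (24 * k ^ 2 * D ^ 2) * k ^ (3 * k * D) < 2 ^ L := by
    exact_mod_cast hL
  have h1 : ((3 * k * D : ℕ) : ℝ) * k ^ (3 * k * D) / rho =
      12 * k * D ^ 2 * k ^ (3 * k * D) * 2 ^ L := by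
    rw [hrho]
    push_cast
    field_simp
    ring
  rw [h1]
  have hkP : (1:ℝ) ≤ (k:ℝ) ^ (3 * k * D) := one_le_pow₀ hkR
  have hD2 : (1:ℝ) ≤ (D:ℝ) ^ 2 := one_le_pow₀ hDR
  have h2L : (1:ℝ) ≤ 2 ^ L := one_le_pow₀ (by norm_num)
  have h2 : (1:ℝ) ≤ 12 * k * D ^ 2 * k ^ (3 * k * D) * 2 ^ L := by
    have e1 : (1:ℝ) ≤ 12 * k := by linarith
    exact one_le_mul_of_one_le_of_one_le (one_le_mul_of_one_le_of_one_le
      (one_le_mul_of_one_le_of_one_le e1 hD2) hkP) h2L
  have h3 : 1 + 12 * k * D ^ 2 * k ^ (3 * k * D) * 2 ^ L ≤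
      24 * k * D ^ 2 * (k:ℝ) ^ (3 * k * D) * 2 ^ L := by
    have : 24 * k * D ^ 2 * (k:ℝ) ^ (3 * k * D) * 2 ^ L =
      12 * k * D ^ 2 * (k:ℝ) ^ (3 * k * D) * 2 ^ L +
      12 * k * D ^ 2 * (k:ℝ) ^ (3 * k * D) * 2 ^ L := by ring
    linarith
  have h4 : (k:ℝ) ≤ k ^ D := le_self_pow₀ hkR (by omega)
  have h5 : (2:ℝ) ^ (3 * k * D) = (2 ^ (3 * k)) ^ D := by rw [← pow_mul]
  calc (2:ℝ) ^ (3 * k * D) * (k * (1 + 12 * k * D ^ 2 * k ^ (3 * k * D) * 2 ^ L) ^ D)
      ≤ (2 ^ (3 * k)) ^ D * (k ^ D * (24 * k * D ^ 2 * (k:ℝ) ^ (3 * k * D) * 2 ^ L) ^ D) := by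
        rw [h5]
        gcongr
    _ = ((2:ℝ) ^ (3 * k) * (24 * k ^ 2 * D ^ 2) * k ^ (3 * k * D) * 2 ^ L) ^ D := by
        rw [← mul_pow, ← mul_pow]
        congr 1
        ring
    _ < ((2:ℝ) ^ L * 2 ^ L) ^ D := by
        apply pow_lt_pow_left₀ _ (by positivity) (by omega)
        exact mul_lt_mul_of_pos_right hLR (by positivity)
    _ = 2 ^ (L * (2 * D)) := by
        rw [← pow_add, ← pow_mul]
        congr 1
        ring

/-- The general form, with a parameter `L`. -/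
theorem ramsey_gen {α X : Type*} {k D L : ℕ} (hk : 0 < k) (hD : 0 < D)
    (hL : 2 ^ (3 * k) * (24 * k ^ 2 * D ^ 2) * k ^ (3 * k * D) < 2 ^ L)
    (col : α → α → Fin k) (hsymm : ∀ a b, col a b = col b a) (S : Finset α) [Fintype X]
    (hS : 2 ^ (L + 1) * k ^ (3 * k * D) * Fintype.card X ≤ S.card) (hX : 0 < Fintype.card X) :
    ∃ c : Fin k, ∀ H : SimpleGraph X, (∀ x, (univ.filter (fun u => H.Adj x u)).card ≤ D) →
      ∃ φ : X → α, Function.Injective φ ∧ (∀ x, φ x ∈ S) ∧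
        ∀ x y, H.Adj x y → col (φ x) (φ y) = c := by
  have hkR : (1:ℝ) ≤ k := by exact_mod_cast hk
  have hDR : (1:ℝ) ≤ D := by exact_mod_cast hD
  have hSne : S.Nonempty := by
    rw [← card_pos]
    refine lt_of_lt_of_le ?_ hS
    positivity
  obtain ⟨rho, hrho⟩ : ∃ rho : ℝ, rho = 1 / 2 ^ L / (4 * D) := ⟨_, rfl⟩
  have hrho0 : 0 < rho := by rw [hrho]; positivity
  obtain ⟨B, c, h1, -, h3, h4⟩ := good_chain hk col S hSne D (3 * k * D) L (2 * D) rho hrho0
    (par_ineq hk hD hL rho hrho)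
  obtain ⟨c0, -, hc0⟩ := exists_le_card_fiber_of_mul_le_card_of_maps_to (s := range (3 * k * D))
    (t := (univ : Finset (Fin k))) (f := c) (n := 3 * D) (fun _ _ => mem_univ _)
    ⟨⟨0, hk⟩, mem_univ _⟩ (by
      rw [card_univ, Fintype.card_fin, card_range]
      apply le_of_eq
      ring)
  refine ⟨c0, ?_⟩
  intro H hdeg
  have hα : Nonempty α := ⟨hSne.choose⟩
  have hn : (1:ℝ) ≤ Fintype.card X := by exact_mod_cast hX
  have hBc : ∀ i, i < 3 * k * D → 2 * (Fintype.card X : ℝ) ≤ 1 / 2 ^ L * (B i).card := by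
    intro i hi
    have h5 : 2 ^ (L + 1) * k ^ (3 * k * D) * Fintype.card X ≤ k ^ (3 * k * D) * (B i).card :=
      hS.trans (h3 i hi)
    have h6 : 2 ^ (L + 1) * Fintype.card X ≤ (B i).card := by
      apply Nat.le_of_mul_le_mul_left _ (pow_pos hk (3 * k * D))
      calc k ^ (3 * k * D) * (2 ^ (L + 1) * Fintype.card X) =
          2 ^ (L + 1) * k ^ (3 * k * D) * Fintype.card X := by ring
        _ ≤ _ := h5
    have h7 : (2:ℝ) ^ (L + 1) * Fintype.card X ≤ (B i).card := by exact_mod_cast h6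
    rw [one_div, inv_mul_eq_div, le_div_iff₀ (by positivity)]
    calc 2 * (Fintype.card X : ℝ) * 2 ^ L = 2 ^ (L + 1) * Fintype.card X := by ring
      _ ≤ _ := h7
  obtain ⟨φ, τ, hst⟩ := embed_part (rel := fun x y => col x y = c0)
    (fun x y hxy => by rw [hsymm]; exact hxy) hdeg (h4 c0)
    (fun i _ => mul_nonneg hrho0.le (Nat.cast_nonneg _)) (by
      intro i hi
      have h5 := hBc i (mem_range.mp (mem_filter.mp hi).1)
      have h6 : (D:ℝ) * (rho * (B i).card) = 1 / 4 * (1 / 2 ^ L * (B i).card) := by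
        rw [hrho]
        field_simp
      rw [h6]
      linarith) univ _ (subset_refl _) (by omega)
  refine ⟨φ, ?_, ?_, ?_⟩
  · intro x y hxy
    exact hst.inj (mem_coe.mpr (mem_univ x)) (mem_coe.mpr (mem_univ y)) hxy
  · intro x
    have h5 := hst.tim x (mem_univ x)
    exact h1 _ (mem_range.mp (mem_filter.mp h5).1) (hst.mem x (mem_univ x))
  · intro x y hxy
    exact hst.adj x (mem_univ x) y (mem_univ y) hxy

/-- Theorem R: `k`-colour Ramsey numbers of bounded degree graphs. -/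
theorem ramsey {α X : Type*} {k D : ℕ} (hk : 0 < k) (hD : 0 < D)
    (col : α → α → Fin k) (hsymm : ∀ a b, col a b = col b a) (S : Finset α) [Fintype X]
    (hS : 2 ^ (15 * k * Nat.clog 2 k * D) * Fintype.card X ≤ S.card) :
    ∃ c : Fin k, ∀ H : SimpleGraph X, (∀ x, (univ.filter (fun u => H.Adj x u)).card ≤ D) →
      ∃ φ : X → α, Function.Injective φ ∧ (∀ x, φ x ∈ S) ∧
        ∀ x y, H.Adj x y → col (φ x) (φ y) = c := by
  rcases Nat.eq_zero_or_pos (Fintype.card X) with hX | hX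
  · have hXe : IsEmpty X := Fintype.card_eq_zero_iff.mp hX
    exact ⟨⟨0, hk⟩, fun H _ => ⟨fun x => (hXe.false x).elim, fun x => (hXe.false x).elim,
      fun x => (hXe.false x).elim, fun x => (hXe.false x).elim⟩⟩
  rcases Nat.lt_or_ge 1 k with hk2 | hk1
  · obtain ⟨l, hl⟩ : ∃ l, l = Nat.clog 2 k := ⟨_, rfl⟩
    rw [← hl] at hS
    have hl1 : 1 ≤ l := by rw [hl]; exact Nat.clog_pos (by norm_num) hk2
    have hkl : k ≤ 2 ^ l := by rw [hl]; exact Nat.le_pow_clog (by norm_num) k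
    have hD2 : D ≤ 2 ^ D := Nat.lt_two_pow_self.le
    have hkDl : 2 ≤ k * D * l := by
      calc 2 = 2 * 1 * 1 := by norm_num
        _ ≤ k * D * l := Nat.mul_le_mul (Nat.mul_le_mul hk2 hD) hl1
    have hkP : k ^ (3 * k * D) ≤ 2 ^ (3 * k * D * l) := by
      calc k ^ (3 * k * D) ≤ (2 ^ l) ^ (3 * k * D) := Nat.pow_le_pow_left hkl _
        _ = 2 ^ (3 * k * D * l) := by rw [← pow_mul, mul_comm]
    apply ramsey_gen (L := 3 * k + 6 + 2 * l + 2 * D + 3 * k * D * l) hk hD _ col hsymm S _ hX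
    · calc 2 ^ (3 * k) * (24 * k ^ 2 * D ^ 2) * k ^ (3 * k * D) ≤
          2 ^ (3 * k) * (2 ^ 5 * (2 ^ l) ^ 2 * (2 ^ D) ^ 2) * 2 ^ (3 * k * D * l) := by
            gcongr
            norm_num
        _ = 2 ^ (3 * k + 5 + 2 * l + 2 * D + 3 * k * D * l) := by
            rw [← pow_mul, ← pow_mul, ← pow_add, ← pow_add, ← pow_add, ← pow_add]
            congr 1
            ring
        _ < 2 ^ (3 * k + 6 + 2 * l + 2 * D + 3 * k * D * l) :=
            Nat.pow_lt_pow_right (by norm_num) (by omega)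
    · refine le_trans (Nat.mul_le_mul_right _ ?_) hS
      calc 2 ^ (3 * k + 6 + 2 * l + 2 * D + 3 * k * D * l + 1) * k ^ (3 * k * D) ≤
          2 ^ (3 * k + 6 + 2 * l + 2 * D + 3 * k * D * l + 1) * 2 ^ (3 * k * D * l) :=
            Nat.mul_le_mul_left _ hkP
        _ = 2 ^ (3 * k + 7 + 2 * l + 2 * D + 6 * (k * D * l)) := by
            rw [← pow_add]
            congr 1
            ring
        _ ≤ 2 ^ (15 * k * l * D) := by
            apply Nat.pow_le_pow_right (by norm_num)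
            have e1 : k * 1 * 1 ≤ k * D * l := Nat.mul_le_mul (Nat.mul_le_mul_left _ hD) hl1
            have e2 : 2 * 1 * l ≤ k * D * l :=
              Nat.mul_le_mul_right _ (Nat.mul_le_mul hk2 hD)
            have e3 : 2 * D * 1 ≤ k * D * l :=
              Nat.mul_le_mul (Nat.mul_le_mul_right _ hk2) hl1
            have e4 : 15 * k * l * D = 15 * (k * D * l) := by ring
            rw [e4]
            omega
  · have hk1' : k = 1 := by omega
    subst hk1'
    refine ⟨⟨0, hk⟩, ?_⟩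
    intro H _
    have h1 : Fintype.card X ≤ S.card := by
      refine le_trans ?_ hS
      exact Nat.le_mul_of_pos_left _ (by positivity)
    have h2 : Fintype.card X ≤ Fintype.card S := by rwa [Fintype.card_coe]
    obtain ⟨f⟩ := Function.Embedding.nonempty_of_card_le h2
    exact ⟨fun x => (f x : α), fun x y hxy => f.injective (Subtype.ext hxy),
      fun x => (f x).2, fun x y _ => Subsingleton.elim _ _⟩

/-- Linear Ramsey numbers, in the form used for tilings. -/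
theorem linRam {α : Type*} {k D : ℕ} (hk : 0 < k) (hD : 0 < D) (F : (r : ℕ) → SimpleGraph (Fin r))
    (hdeg : ∀ r x, (univ.filter ((F r).Adj x)).card ≤ D)
    (col : α → α → Fin k) (hsymm : ∀ a b, col a b = col b a) :
    Pool.Agent.H21.Tile.LinRam F col (2 ^ (15 * k * Nat.clog 2 k * D)) := by
  intro S b hb hS
  obtain ⟨c, hc⟩ := ramsey (X := Fin b) hk hD col hsymm S (by rwa [Fintype.card_fin])
  obtain ⟨φ, h1, h2, h3⟩ := hc (F b) (hdeg b)
  refine ⟨univ.image φ, ?_, ?_, c, b, φ, h1, rfl, h3⟩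
  · intro y hy
    obtain ⟨x, -, hx⟩ := mem_image.mp hy
    rw [← hx]
    exact h2 x
  · rw [card_image_of_injective _ h1, card_univ, Fintype.card_fin]

end Pool.Agent.H80.RR
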