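import Pool.Agent.H27.RM.AbsCore
import Pool.Agent.H36.KR.ChainIn
import Pool.Agent.H99.KR.Rich

/-! The static property with linear exponents (proofs 344, helper27): iteration over the colours and
all numbers (MP_53afc0_co). -/

namespace Pool.Agent.H80.RR

open Finset Classical Pool.Agent.H21.Poly Pool.Agent.H21.Tile Pool.Agent.H99.KR
open Pool.Agent.H27.RM

/-- Every set of large measure contains a good chain of a living colour. -/
lemma chain_ex {α : Type*} [Fintype α] {k : ℕ} (col : α → α → Fin k) (D0 : Finset (Fin k))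
    (hD0 : (univ \ D0).Nonempty) (w : α → ℝ) (hw0 : ∀ x, 0 ≤ w x) (Δ m P L a : ℕ) (hΔ : 1 ≤ Δ)
    (hP : P = k * (3 * Δ)) (hm : 2 * k ≤ 2 ^ m)
    (hcond : (4:ℝ) ^ P * k * (1 + (P + 1) * 2 ^ a * 2 ^ (m * P)) ^ Δ < 2 ^ (L * (2 * Δ)))
    (s : ℝ) (hs : 0 < s) (hdead : 8 * eD col D0 w w ≤ ((1 / 2 : ℝ) ^ (m * P) * s) ^ 2)
    (Y : Finset α) (hY : s ≤ mu w Y) :
    ∃ c, c ∉ D0 ∧ ∃ A T, GC col w c Δ (2 * Δ) ((1 / 2) ^ L) ((1 / 2) ^ a)
      ((1 / 2) ^ (m * P) * s) Y A T ∧ (1 / 2 : ℝ) ^ (m * P) * mu w Y ≤ mu w (A 0) := by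
  have hk : 0 < k := by
    obtain ⟨c, _⟩ := hD0
    exact Fin.pos c
  have hdeadY : 8 * ∑ x ∈ Y, w x * mu w (Y.filter (fun y => col x y ∈ D0)) ≤
      ((1 / 2 : ℝ) ^ (m * P) * mu w Y) ^ 2 := by
    have h1 : ∑ x ∈ Y, w x * mu w (Y.filter (fun y => col x y ∈ D0)) ≤ eD col D0 w w := by
      have h2 : ∀ x, mu w (Y.filter (fun y => col x y ∈ D0)) ≤ nbw col D0 w x := by
        intro x
        unfold mu nbw
        rw [sum_filter]
        apply sum_le_sum_of_subset_of_nonneg (subset_univ _)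
        intro y _ _
        split_ifs
        · exact hw0 y
        · exact le_rfl
      unfold eD
      calc ∑ x ∈ Y, w x * mu w (Y.filter (fun y => col x y ∈ D0)) ≤
          ∑ x ∈ Y, w x * nbw col D0 w x :=
            sum_le_sum (fun x _ => mul_le_mul_of_nonneg_left (h2 x) (hw0 x))
        _ ≤ ∑ x, w x * nbw col D0 w x := by
            apply sum_le_sum_of_subset_of_nonneg (subset_univ _)
            intro x _ _
            exact mul_nonneg (hw0 x) (nbw_nonneg hw0 x)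
    have h3 : ((1 / 2 : ℝ) ^ (m * P) * s) ^ 2 ≤ ((1 / 2 : ℝ) ^ (m * P) * mu w Y) ^ 2 := by
      apply pow_le_pow_left₀ (by positivity)
      exact mul_le_mul_of_nonneg_left hY (by positivity)
    linarith
  obtain ⟨A, cc, h1, h2, h3, h4, h5⟩ := Pool.Agent.H36.KR.chain_in col D0 hD0 w hw0 Y
    (lt_of_lt_of_le hs hY) Δ m P (2 * Δ) L a hm hcond hdeadY
  obtain ⟨c0, -, hc0⟩ := exists_le_card_fiber_of_mul_le_card_of_maps_to (s := Icc 1 P)
    (t := (univ : Finset (Fin k))) (f := cc) (n := 3 * Δ) (fun _ _ => mem_univ _)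
    ⟨⟨0, hk⟩, mem_univ _⟩ (by
      rw [card_univ, Fintype.card_fin, Nat.card_Icc, hP]
      omega)
  have hne : ((Icc 1 P).filter (fun i => cc i = c0)).Nonempty := by
    rw [← card_pos]
    omega
  obtain ⟨i0, hi0⟩ := hne
  have hcD : c0 ∉ D0 := by
    have := (mem_filter.mp hi0).2
    rw [← this]
    exact h1 i0
  refine ⟨c0, hcD, A, (Icc 1 P).filter (fun i => cc i = c0), ⟨h2, h3, ?_, ?_, ?_, h5 c0⟩, h4 0⟩
  · intro i
    refine le_trans ?_ (h4 i)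
    exact mul_le_mul_of_nonneg_left hY (by positivity)
  · intro i hi
    exact (mem_Icc.mp (mem_filter.mp hi).1).1
  · omega

/-- Iteration over the colours. -/
lemma static_iter {α : Type*} [Fintype α] {k : ℕ} (col : α → α → Fin k) (D0 : Finset (Fin k))
    (w : α → ℝ) (Δ b : ℕ) (β ρ σ δ s : ℝ) (hσ0 : 0 ≤ σ) (hσ1 : σ ≤ 1)
    (hδ0 : 0 ≤ δ) (hδ1 : δ ≤ 1) (hw0 : ∀ x, 0 ≤ w x)
    (hCH : ∀ Y : Finset α, s ≤ mu w Y → ∃ c, c ∉ D0 ∧ ∃ A T, GC col w c Δ b β ρ (σ * s) Y A T ∧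
      σ * mu w Y ≤ mu w (A 0)) (n : ℕ) :
    ∀ (W : Finset α) (PP : Finset (Fin k)), (∀ c ∈ PP, ¬ ∃ A T, GC col w c Δ b β ρ (σ * s) W A T) →
      ((univ \ D0) \ PP).card ≤ n → s ≤ (δ * σ) ^ n * mu w W →
      ∃ c, c ∉ D0 ∧ ∃ A T, GC col w c Δ b β ρ (σ * s) univ A T ∧
        ∀ Z ⊆ A 0, δ * mu w (A 0) ≤ mu w Z → ∃ A' T', GC col w c Δ b β ρ (σ * s) Z A' T' := by
  have hδσ0 : 0 ≤ δ * σ := mul_nonneg hδ0 hσ0
  have hδσ1 : δ * σ ≤ 1 := mul_le_one₀ hδ1 hσ0 hσ1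
  induction n with
  | zero =>
    intro W PP hPP hcard hW
    rw [pow_zero, one_mul] at hW
    obtain ⟨c, hc, A, T, hG, -⟩ := hCH W hW
    exfalso
    have h1 : c ∈ (univ \ D0) \ PP := by
      rw [mem_sdiff, mem_sdiff]
      exact ⟨⟨mem_univ _, hc⟩, fun h => hPP c h ⟨A, T, hG⟩⟩
    have := card_pos.mpr ⟨c, h1⟩
    omega
  | succ n ih =>
    intro W PP hPP hcard hW
    have hmu : 0 ≤ mu w W := sum_nonneg (fun x _ => hw0 x)
    have hW1 : s ≤ mu w W := by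
      refine hW.trans ?_
      have : (δ * σ) ^ (n + 1) ≤ 1 := pow_le_one₀ hδσ0 hδσ1
      calc (δ * σ) ^ (n + 1) * mu w W ≤ 1 * mu w W := by gcongr
        _ = mu w W := one_mul _
    obtain ⟨c, hc, A, T, hG, hA0⟩ := hCH W hW1
    by_cases hgood : ∀ Z ⊆ A 0, δ * mu w (A 0) ≤ mu w Z →
        ∃ A' T', GC col w c Δ b β ρ (σ * s) Z A' T'
    · exact ⟨c, hc, A, T, hG.mono (subset_univ _), hgood⟩
    · push Not at hgood
      obtain ⟨Z, hZ, hZmu, hZG⟩ := hgood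
      have hcPP : c ∉ PP := fun h => hPP c h ⟨A, T, hG⟩
      apply ih Z (insert c PP)
      · intro c' hc'
        rw [mem_insert] at hc'
        rcases hc' with hc' | hc'
        · rw [hc']
          rintro ⟨A', T', hG'⟩
          exact hZG A' T' hG'
        · rintro ⟨A', T', hG'⟩
          exact hPP c' hc' ⟨A', T', hG'.mono (hZ.trans (hG.2.1 0))⟩
      · have h1 : (univ \ D0) \ insert c PP ⊆ ((univ \ D0) \ PP).erase c := by
          intro c' hc'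
          rw [mem_sdiff, mem_insert, not_or] at hc'
          rw [mem_erase, mem_sdiff]
          exact ⟨hc'.2.1, hc'.1, hc'.2.2⟩
        have h2 := card_le_card h1
        rw [card_erase_of_mem (by
          rw [mem_sdiff, mem_sdiff]
          exact ⟨⟨mem_univ _, hc⟩, hcPP⟩)] at h2
        omega
      · calc s ≤ (δ * σ) ^ (n + 1) * mu w W := hW
          _ = (δ * σ) ^ n * (δ * (σ * mu w W)) := by rw [pow_succ]; ring
          _ ≤ (δ * σ) ^ n * (δ * mu w (A 0)) := by gcongr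
          _ ≤ (δ * σ) ^ n * mu w Z := by gcongr

lemma half_cond {k Δ P m a L A1 : ℕ} (hΔ : 1 ≤ Δ) (ha : a = L + A1)
    (hL : L = 3 * P + k + m * P + A1 + 2) :
    (4:ℝ) ^ P * k * (1 + (P + 1) * 2 ^ a * 2 ^ (m * P)) ^ Δ < 2 ^ (L * (2 * Δ)) := by
  have h1 : (P + 1 : ℕ) ≤ 2 ^ P := Nat.lt_two_pow_self
  have h2 : (1 + (P + 1) * 2 ^ a * 2 ^ (m * P) : ℕ) ≤ 2 ^ (a + m * P + P + 1) := by
    have h3 : (P + 1) * 2 ^ a * 2 ^ (m * P) ≤ 2 ^ (a + m * P + P) := by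
      calc (P + 1) * 2 ^ a * 2 ^ (m * P) ≤ 2 ^ P * 2 ^ a * 2 ^ (m * P) := by gcongr
        _ = 2 ^ (a + m * P + P) := by
            rw [← pow_add, ← pow_add]
            congr 1
            ring
    have h4 : 1 ≤ 2 ^ (a + m * P + P) := Nat.one_le_two_pow
    rw [pow_succ]
    omega
  have h5 : k ≤ 2 ^ k := Nat.lt_two_pow_self.le
  have h6 : (4 ^ P * k * (1 + (P + 1) * 2 ^ a * 2 ^ (m * P)) ^ Δ : ℕ) < 2 ^ (L * (2 * Δ)) := by
    calc 4 ^ P * k * (1 + (P + 1) * 2 ^ a * 2 ^ (m * P)) ^ Δ ≤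
        4 ^ P * 2 ^ k * (2 ^ (a + m * P + P + 1)) ^ Δ := by gcongr
      _ = 2 ^ (2 * P + k + (a + m * P + P + 1) * Δ) := by
          rw [← pow_mul, show (4:ℕ) = 2 ^ 2 by norm_num, ← pow_mul, ← pow_add, ← pow_add]
      _ < 2 ^ (L * (2 * Δ)) := by
          apply Nat.pow_lt_pow_right (by norm_num)
          have e1 : L * (2 * Δ) = L * Δ + L * Δ := by ring
          have e2 : L * Δ = (2 * P + k) * Δ + (m * P + P + 1 + A1) * Δ + Δ := by
            rw [hL]; ring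
          have e3 : (a + m * P + P + 1) * Δ = L * Δ + (m * P + P + 1 + A1) * Δ := by
            rw [ha]; ring
          have e4 : 2 * P + k ≤ (2 * P + k) * Δ := Nat.le_mul_of_pos_right _ hΔ
          omega
  exact_mod_cast h6

/-- The static property with linear exponents. -/
theorem static_thm (k : ℕ) : ∃ C0 : ℕ, ∀ Δ : ℕ, 1 ≤ Δ → ∀ {α : Type*} [Fintype α] [Nonempty α]
    (F : (r : ℕ) → SimpleGraph (Fin r)), (∀ r x, (univ.filter ((F r).Adj x)).card ≤ Δ) →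
    ∀ (col : α → α → Fin k), (∀ a b, col a b = col b a) →
    ∀ r p, r < k → StaticP F col Δ r p (C0 * (Δ + p)) (C0 * (Δ + p)) := by
  refine ⟨100 * k ^ 3 + 100, ?_⟩
  intro Δ hΔ α _ _ F hdeg col hsymm r p hrk D0 hD0c w hw0 hw1 hdead
  obtain ⟨C0, hC0⟩ : ∃ C0, C0 = 100 * k ^ 3 + 100 := ⟨_, rfl⟩
  rw [← hC0] at hdead ⊢
  have hk : 0 < k := by omega
  have hD0 : (univ \ D0).Nonempty := by
    rw [← card_pos]; omega
  rcases (mass_nonneg hw0).eq_or_lt with hM0 | hM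
  · -- no mass
    obtain ⟨c, hc⟩ := hD0
    refine ⟨c, (mem_sdiff.mp hc).2, w, hw0, fun _ => le_rfl, ?_, ?_⟩
    · rw [← hM0, mul_zero]
    · intro L U _ _ hsz
      rw [← hM0, mul_zero] at hsz
      have hMD : (1:ℝ) ≤ MD Δ := by
        have : 1 ≤ MD Δ := by unfold MD; omega
        exact_mod_cast this
      have hU0 : (0:ℝ) ≤ U.card := Nat.cast_nonneg _
      have hL0 : (0:ℝ) ≤ L.card := Nat.cast_nonneg _
      have hL1 : (L.card : ℝ) ≤ MD Δ * L.card := by nlinarith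
      have hL2 : (L.card : ℝ) ≤ 0 := by linarith
      have hL3 : L = ∅ := by
        rw [← card_eq_zero]
        have : L.card ≤ 0 := by exact_mod_cast hL2
        omega
      refine ⟨∅, by simp, by simp, by simp, c, 0, fun i => i.elim0, ?_, ?_, ?_⟩
      · intro x; exact x.elim0
      · rw [hL3]; simp
      · intro x; exact x.elim0
  -- parameters
  obtain ⟨m, hm⟩ : ∃ m, m = k + 1 := ⟨_, rfl⟩
  obtain ⟨P, hP⟩ : ∃ P, P = k * (3 * Δ) := ⟨_, rfl⟩
  obtain ⟨n1, hn1⟩ : ∃ n1, n1 = r + 1 := ⟨_, rfl⟩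
  obtain ⟨A1, hA1⟩ : ∃ A1, A1 = 2 + m * P + n1 * (p + m * P) + Δ := ⟨_, rfl⟩
  obtain ⟨L, hL⟩ : ∃ L, L = 3 * P + k + m * P + A1 + 2 := ⟨_, rfl⟩
  obtain ⟨a, ha⟩ : ∃ a, a = L + A1 := ⟨_, rfl⟩
  have hm2 : 2 * k ≤ 2 ^ m := by
    have : k ≤ 2 ^ k := Nat.lt_two_pow_self.le
    rw [hm, pow_succ]
    omega
  have hcond := half_cond (k := k) hΔ ha hL
  obtain ⟨s, hs⟩ : ∃ s : ℝ, s = (1 / 2) ^ (n1 * (p + m * P)) * mass w := ⟨_, rfl⟩
  have hs0 : 0 < s := by rw [hs]; positivity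
  -- numbers
  have hkk : k * k ≤ k ^ 3 := by
    calc k * k = k * k * 1 := (mul_one _).symm
      _ ≤ k * k * k := Nat.mul_le_mul_left _ hk
      _ = k ^ 3 := by ring
  have hk1 : k ≤ k * k := Nat.le_mul_of_pos_left _ hk
  have hkk' : k * k * Δ ≤ k ^ 3 * Δ := Nat.mul_le_mul_right _ hkk
  have hk1' : k * Δ ≤ k * k * Δ := Nat.mul_le_mul_right _ hk1
  have hkp : k * p ≤ k ^ 3 * p := Nat.mul_le_mul_right _ (hk1.trans hkk)
  have hk3 : k ^ 3 ≤ k ^ 3 * Δ := Nat.le_mul_of_pos_right _ hΔ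
  have hPe : P = 3 * (k * Δ) := by rw [hP]; ring
  have hmP : m * P = 3 * (k * k * Δ) + 3 * (k * Δ) := by rw [hm, hP]; ring
  have hn1k : n1 ≤ k := by omega
  have hn1p : n1 * (p + m * P) ≤ k * p + (3 * (k ^ 3 * Δ) + 3 * (k * k * Δ)) := by
    calc n1 * (p + m * P) ≤ k * (p + m * P) := Nat.mul_le_mul_right _ hn1k
      _ = k * p + (3 * (k ^ 3 * Δ) + 3 * (k * k * Δ)) := by rw [hmP]; ring
  have hC0e : C0 * (Δ + p) = 100 * (k ^ 3 * Δ) + 100 * (k ^ 3 * p) + 100 * Δ + 100 * p := by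
    rw [hC0]; ring
  have hB1 : 3 + 2 * (m * P) + 2 * (n1 * (p + m * P)) ≤ C0 * (Δ + p) := by omega
  have hB2 : L + 2 + m * P + n1 * (p + m * P) ≤ C0 * (Δ + p) := by omega
  have hB3 : m * P + n1 * (p + m * P) ≤ C0 * (Δ + p) := by omega
  have hdead8 : 8 * eD col D0 w w ≤ ((1 / 2 : ℝ) ^ (m * P) * s) ^ 2 := by
    have h1 : ((1:ℝ) / 2) ^ (C0 * (Δ + p)) ≤
        (1 / 2) ^ (3 + 2 * (m * P) + 2 * (n1 * (p + m * P))) :=
      pow_le_pow_of_le_one (by norm_num) (by norm_num) hB1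
    calc 8 * eD col D0 w w ≤ 8 * ((1 / 2) ^ (C0 * (Δ + p)) * mass w ^ 2) := by linarith
      _ ≤ 8 * ((1 / 2) ^ (3 + 2 * (m * P) + 2 * (n1 * (p + m * P))) * mass w ^ 2) := by gcongr
      _ = ((1 / 2 : ℝ) ^ (m * P) * s) ^ 2 := by
          rw [hs, mul_pow, mul_pow, ← pow_mul, ← pow_mul, pow_add, pow_add,
            mul_comm 2 (m * P), mul_comm 2 (n1 * (p + m * P))]
          ring
  have hmuM : mu w univ = mass w := rfl
  obtain ⟨c, hc, A, T, hG, hZ⟩ := static_iter col D0 w Δ (2 * Δ) ((1 / 2) ^ L) ((1 / 2) ^ a)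
    ((1 / 2) ^ (m * P)) ((1 / 2) ^ p) s (by positivity)
    (pow_le_one₀ (by norm_num) (by norm_num)) (by positivity)
    (pow_le_one₀ (by norm_num) (by norm_num)) hw0
    (fun Y hY => chain_ex col D0 hD0 w hw0 Δ m P L a hΔ hP hm2 hcond s hs0 hdead8 Y hY) n1 univ ∅
    (by simp) (by rw [sdiff_empty]; omega) (by
      rw [hmuM, hs, ← pow_add, ← pow_mul, mul_comm (p + m * P) n1])
  have hm0A : (1 / 2 : ℝ) ^ (m * P) * s ≤ mu w (A 0) := hG.2.2.1 0
  have hmw' : mass (restr (fun x => x ∈ A 0) w) = mu w (A 0) := mass_restr_mem w (A 0)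
  have hm0e : (1 / 2 : ℝ) ^ (m * P) * s = (1 / 2) ^ (m * P + n1 * (p + m * P)) * mass w := by
    rw [hs, pow_add]; ring
  refine ⟨c, hc, restr (fun x => x ∈ A 0) w, restr_nonneg hw0, ?_, ?_, ?_⟩
  · intro x
    unfold restr
    split_ifs
    · exact le_rfl
    · exact hw0 x
  · rw [hmw']
    refine le_trans ?_ hm0A
    rw [hm0e]
    apply mul_le_mul_of_nonneg_right _ hM.le
    exact pow_le_pow_of_le_one (by norm_num) (by norm_num) hB3
  · intro Lv U hLw hLd hsz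
    rw [hmw'] at hsz hLd
    have hA0M : mu w (A 0) ≤ mass w :=
      sum_le_sum_of_subset_of_nonneg (subset_univ _) fun x _ _ => hw0 x
    apply absorb_core F Δ hdeg col hsymm w hw0 hw1 (2 * Δ) ((1 / 2) ^ L) ((1 / 2) ^ a)
      ((1 / 2) ^ (m * P) * s) (by positivity) (by positivity) (by positivity) ?_ c A T hG Lv U hLw ?_ ?_
    · -- `Δ ρ M ≤ β m0 / 4`
      have h1 : (Δ : ℝ) ≤ 2 ^ Δ := by
        have : Δ ≤ 2 ^ Δ := Nat.lt_two_pow_self.le
        exact_mod_cast this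
      have h2 : ((1:ℝ) / 2) ^ a = (1 / 2) ^ L * ((1 / 2) ^ 2 * (1 / 2) ^ (m * P + n1 * (p + m * P)) *
          (1 / 2) ^ Δ) := by
        rw [← pow_add, ← pow_add, ← pow_add]
        congr 1
        rw [ha, hA1]
        ring
      have h3 : (2:ℝ) ^ Δ * (1 / 2) ^ Δ = 1 := by rw [← mul_pow]; norm_num
      rw [hm0e, h2]
      calc (Δ : ℝ) * ((1 / 2) ^ L * ((1 / 2) ^ 2 * (1 / 2) ^ (m * P + n1 * (p + m * P)) *
          (1 / 2) ^ Δ) * mass w) ≤ 2 ^ Δ * ((1 / 2) ^ L * ((1 / 2) ^ 2 *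
          (1 / 2) ^ (m * P + n1 * (p + m * P)) * (1 / 2) ^ Δ) * mass w) := by gcongr
        _ = (2 ^ Δ * (1 / 2) ^ Δ) * ((1 / 2) ^ L * ((1 / 2) ^ (m * P + n1 * (p + m * P)) *
          mass w) / 4) := by ring
        _ = (1 / 2) ^ L * ((1 / 2) ^ (m * P + n1 * (p + m * P)) * mass w) / 4 := by
          rw [h3, one_mul]
    · intro v hv
      apply hZ _ (filter_subset _ _)
      have h1 := hLd v hv
      rw [nbw_restr_mem] at h1
      exact h1
    · refine hsz.trans ?_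
      rw [hm0e]
      calc ((1:ℝ) / 2) ^ (C0 * (Δ + p)) * mu w (A 0) ≤
          (1 / 2) ^ (L + 2 + m * P + n1 * (p + m * P)) * mass w := by
            apply mul_le_mul _ hA0M (sum_nonneg fun x _ => hw0 x) (by positivity)
            exact pow_le_pow_of_le_one (by norm_num) (by norm_num) hB2
        _ = (1 / 2) ^ L * ((1 / 2) ^ (m * P + n1 * (p + m * P)) * mass w) / 4 := by
            rw [show L + 2 + m * P + n1 * (p + m * P) = L + (2 + (m * P + n1 * (p + m * P))) by ring,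
              pow_add, pow_add]
            ring

end Pool.Agent.H80.RR
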